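import Pool.Agent.U195.HX.Half
import Pool.Agent.W846.F2.Graph

/-! Triangle-free graphs with the largest number of edges, and the rigidity of the system. -/

set_option autoImplicit false

open Finset

namespace Pool.Agent.U195.HX

open Pool.Agent.W846.F2

section
variable {α : Type} [Fintype α]

theorem edge_le {g : α → α → ℝ} (g01 : ∀ x y, g x y = 0 ∨ g x y = 1)
    (tri : ∀ x y z, g x y = 1 → g x z = 1 → g y z = 1 → False) {x y : α} (hxy : g x y = 1)
    (z : α) : g x z + g y z ≤ 1 := by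
  rcases g01 x z with h | h <;> rcases g01 y z with h' | h' <;> rw [h, h']
  · norm_num
  · norm_num
  · norm_num
  · exact absurd (tri x y z hxy h h') id

theorem mantel {m : ℝ} (hm : (Fintype.card α : ℝ) = m) {g : α → α → ℝ}
    (g01 : ∀ x y, g x y = 0 ∨ g x y = 1) (gs : ∀ x y, g y x = g x y)
    (tri : ∀ x y z, g x y = 1 → g x z = 1 → g y z = 1 → False) :
    ∑ x, ((∑ y, g x y) - m / 2) ^ 2 ≤ m / 2 * (m ^ 2 / 2 - ∑ x, ∑ y, g x y) := by
  set d : α → ℝ := fun x => ∑ y, g x y with hd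
  have h1 : ∑ x, ∑ y, g x y * (d x + d y) ≤ ∑ x, ∑ y, g x y * m := by
    refine sum_le_sum fun x _ => sum_le_sum fun y _ => ?_
    rcases g01 x y with h | h
    · rw [h]; simp
    · rw [h, one_mul, one_mul]
      have : d x + d y = ∑ z, (g x z + g y z) := by rw [sum_add_distrib]
      rw [this]
      refine (sum_le_sum fun z _ => edge_le g01 tri h z).trans ?_
      rw [sum_const, card_univ, nsmul_eq_mul, mul_one, hm]
  have h2 : ∑ x, ∑ y, g x y * (d x + d y) = 2 * ∑ x, d x ^ 2 := by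
    simp only [mul_add, sum_add_distrib]
    have e1 : ∑ x, ∑ y, g x y * d x = ∑ x, d x ^ 2 := by
      refine sum_congr rfl fun x _ => ?_
      rw [← sum_mul, pow_two]
    have e2 : ∑ x, ∑ y, g x y * d y = ∑ x, d x ^ 2 := by
      rw [sum_comm]
      refine sum_congr rfl fun y _ => ?_
      rw [← sum_mul, pow_two]
      congr 1
      exact sum_congr rfl fun x _ => gs y x
    rw [e1, e2]; ring
  have h3 : ∑ x, ∑ y, g x y * m = m * ∑ x, d x := by
    rw [mul_sum]
    refine sum_congr rfl fun x _ => ?_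
    rw [← sum_mul, mul_comm]
  have h4 : ∑ x, (d x - m / 2) ^ 2 = ∑ x, d x ^ 2 - m * ∑ x, d x + m * (m ^ 2 / 4) := by
    have : ∀ x, (d x - m / 2) ^ 2 = d x ^ 2 - m * d x + m ^ 2 / 4 := fun x => by ring
    simp only [this, sum_add_distrib, sum_sub_distrib, ← mul_sum, sum_const, card_univ,
      nsmul_eq_mul, hm]
  change ∑ x, (d x - m / 2) ^ 2 ≤ m / 2 * (m ^ 2 / 2 - ∑ x, d x)
  rw [h4]
  rw [h2, h3] at h1
  nlinarith

theorem mantel_le {m : ℝ} (hm : (Fintype.card α : ℝ) = m) (hm0 : 0 < m) {g : α → α → ℝ}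
    (g01 : ∀ x y, g x y = 0 ∨ g x y = 1) (gs : ∀ x y, g y x = g x y)
    (tri : ∀ x y z, g x y = 1 → g x z = 1 → g y z = 1 → False) :
    ∑ x, ∑ y, g x y ≤ m ^ 2 / 2 := by
  have h := mantel hm g01 gs tri
  have h0 : 0 ≤ ∑ x, ((∑ y, g x y) - m / 2) ^ 2 := sum_nonneg fun x _ => sq_nonneg _
  have h1 : 0 ≤ m ^ 2 / 2 - ∑ x, ∑ y, g x y :=
    nonneg_of_mul_nonneg_right (h0.trans h) (by positivity)
  linarith

theorem mantel_eq {m : ℝ} (hm : (Fintype.card α : ℝ) = m) (hm0 : 0 < m) {g : α → α → ℝ}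
    (g01 : ∀ x y, g x y = 0 ∨ g x y = 1) (gs : ∀ x y, g y x = g x y)
    (tri : ∀ x y z, g x y = 1 → g x z = 1 → g y z = 1 → False)
    (he : ∑ x, ∑ y, g x y = m ^ 2 / 2) :
    (∀ x, ∑ y, g x y = m / 2) ∧
      ∀ x y z, (1 - 2 * g x z) = (1 - 2 * g x y) * (1 - 2 * g y z) := by
  have h := mantel hm g01 gs tri
  rw [he, sub_self, mul_zero] at h
  have hd : ∀ x, ∑ y, g x y = m / 2 := by
    have h0 : ∑ x, ((∑ y, g x y) - m / 2) ^ 2 = 0 :=
      le_antisymm h (sum_nonneg fun x _ => sq_nonneg _)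
    rw [sum_eq_zero_iff_of_nonneg fun x _ => sq_nonneg _] at h0
    intro x
    have := h0 x (mem_univ x)
    have := pow_eq_zero_iff (two_ne_zero) |>.mp this
    linarith
  have he2 : ∀ x y z, g x y = 1 → g x z + g y z = 1 := by
    intro x y z hxy
    have h0 : ∑ z, (1 - (g x z + g y z)) = 0 := by
      rw [sum_sub_distrib, sum_add_distrib, hd, hd, sum_const, card_univ, nsmul_eq_mul, mul_one, hm]
      ring
    rw [sum_eq_zero_iff_of_nonneg fun z _ => by linarith [edge_le g01 tri hxy z]] at h0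
    have := h0 z (mem_univ z)
    linarith
  refine ⟨hd, fun x y z => ?_⟩
  rcases g01 x y with hxy | hxy
  · obtain ⟨w, hw⟩ : ∃ w, g x w = 1 := by
      by_contra hc
      push Not at hc
      have : ∑ y, g x y = 0 := sum_eq_zero fun y _ => (g01 x y).resolve_right (hc y)
      rw [hd x] at this
      linarith
    have k1 := he2 x w y hw
    rw [hxy, zero_add] at k1
    have k2 := he2 x w z hw
    have k3 := he2 w y z k1
    rw [hxy]
    linarith
  · have k1 := he2 x y z hxy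
    rw [hxy]
    linarith

end

section
variable {α β : Type} [Fintype α] [Fintype β] [Nonempty α] [Nonempty β]

theorem av_zero {f : α → ℝ} (h : ∀ x, 0 ≤ f x) (h0 : av f = 0) (x : α) : f x = 0 := by
  unfold av at h0
  have hc : (Fintype.card α : ℝ) ≠ 0 := by exact_mod_cast Fintype.card_ne_zero
  rw [div_eq_zero_iff] at h0
  have h1 : ∑ x, f x = 0 := h0.resolve_right hc
  rw [sum_eq_zero_iff_of_nonneg fun x _ => h x] at h1
  exact h1 x (mem_univ x)

/-- one side of the rigidity -/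
theorem side_rigid {g : α → α → β → β → ℝ} {t : α → α → α → β → ℝ}
    {s : β → β → β → α → ℝ} (h : Sys g t s) (hdg : ∀ a a' b, g a a' b b = 0)
    (ht : ∀ a a' a'' b, t a a' a'' b = 0) {m : ℝ} (ha : (Fintype.card α : ℝ) = m)
    (hb : (Fintype.card β : ℝ) = m)
    (hE : (av fun a => av fun a' => av fun b => av fun b' => g a a' b b') = 1 / 2 * (1 - 1 / m)) :
    (∀ b b', b ≠ b' → ∀ a, ∑ a', g a a' b b' = m / 2) ∧
    ∀ b b' a a' a'', (1 - 2 * g a a'' b b') = (1 - 2 * g a a' b b') * (1 - 2 * g a' a'' b b') := by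
  classical
  have hm0 : 0 < m := by rw [← ha]; exact_mod_cast Fintype.card_pos
  have tri : ∀ b b' x y z, g x y b b' = 1 → g x z b b' = 1 → g y z b b' = 1 → False :=
    fun b b' x y z h1 h2 h3 => h.covA x y z b b' h1 h2 h3 (ht _ _ _ _) (ht _ _ _ _)
  have hle : ∀ b b', ∑ x, ∑ y, g x y b b' ≤ m ^ 2 / 2 := fun b b' =>
    mantel_le ha hm0 (fun x y => h.g01 x y b b') (fun x y => h.gA x y b b') (tri b b')
  have hsum : ∑ b, ∑ b', ((m ^ 2 / 2) * (1 - if b = b' then 1 else 0) - ∑ x, ∑ y, g x y b b') = 0 := by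
    simp only [sum_sub_distrib, ← mul_sum, sum_ite_eq, mem_univ, if_true, sum_const, card_univ,
      nsmul_eq_mul, mul_one, hb]
    have e := av4 (fun (b b' : β) (a a' : α) => g a a' b b')
    rw [comm4, hE, ha, hb] at e
    rw [← e]
    field_simp
    ring
  have hnn : ∀ b b', 0 ≤ (m ^ 2 / 2) * (1 - if b = b' then 1 else 0) - ∑ x, ∑ y, g x y b b' := by
    intro b b'
    by_cases hbb : b = b'
    · subst hbb
      rw [if_pos rfl]
      simp [hdg]
    · rw [if_neg hbb]
      linarith [hle b b']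
  rw [sum_eq_zero_iff_of_nonneg fun b _ => sum_nonneg fun b' _ => hnn b b'] at hsum
  have heq : ∀ b b', b ≠ b' → ∑ x, ∑ y, g x y b b' = m ^ 2 / 2 := by
    intro b b' hbb
    have h1 := hsum b (mem_univ b)
    rw [sum_eq_zero_iff_of_nonneg fun b' _ => hnn b b'] at h1
    have h2 := h1 b' (mem_univ b')
    rw [if_neg hbb] at h2
    linarith
  constructor
  · intro b b' hbb a
    exact (mantel_eq ha hm0 (fun x y => h.g01 x y b b') (fun x y => h.gA x y b b') (tri b b')
      (heq b b' hbb)).1 a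
  · intro b b' a a' a''
    by_cases hbb : b = b'
    · subst hbb
      simp [hdg]
    · exact (mantel_eq ha hm0 (fun x y => h.g01 x y b b') (fun x y => h.gA x y b b') (tri b b')
        (heq b b' hbb)).2 a a' a''

/-- the extremal systems come from Hadamard matrices -/
theorem rigid {g : α → α → β → β → ℝ} {t : α → α → α → β → ℝ}
    {s : β → β → β → α → ℝ} (h : Sys g t s) (hdg : ∀ a a' b, g a a' b b = 0)
    (hdg' : ∀ a b b', g a a b b' = 0)
    (ht : ∀ a a' a'' b, t a a' a'' b = 0) (hs : ∀ b b' b'' a, s b b' b'' a = 0)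
    {m : ℝ} (ha : (Fintype.card α : ℝ) = m) (hb : (Fintype.card β : ℝ) = m)
    (hE : (av fun a => av fun a' => av fun b => av fun b' => g a a' b b') = 1 / 2 * (1 - 1 / m)) :
    ∃ M : α → β → ℝ, (∀ a b, M a b = 1 ∨ M a b = -1) ∧
      (∀ b b', b ≠ b' → ∑ a, M a b * M a b' = 0) ∧
      ∀ a a' b b', 1 - 2 * g a a' b b' = M a b * M a b' * (M a' b * M a' b') := by
  obtain ⟨R1, R2⟩ := side_rigid h hdg ht ha hb hE
  obtain ⟨-, S2⟩ := side_rigid h.swap (fun b b' a => hdg' a b b') hs hb ha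
    (by rw [comm4]; exact hE)
  obtain ⟨a0⟩ := ‹Nonempty α›
  obtain ⟨b0⟩ := ‹Nonempty β›
  have sq : ∀ a a' b b', (1 - 2 * g a a' b b') = 1 ∨ (1 - 2 * g a a' b b') = -1 := by
    intro a a' b b'
    rcases h.g01 a a' b b' with k | k <;> rw [k] <;> norm_num
  refine ⟨fun a b => 1 - 2 * g a a0 b b0, fun a b => sq a a0 b b0, ?_, ?_⟩
  · intro b b' hbb
    have e : ∀ a, (1 - 2 * g a a0 b b0) * (1 - 2 * g a a0 b' b0) = 1 - 2 * g a a0 b b' := by
      intro a
      rw [S2 a a0 b b0 b', h.gB a a0 b' b0]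
    simp only [e]
    rw [sum_sub_distrib, ← mul_sum]
    have : ∑ a, g a a0 b b' = m / 2 := by
      rw [← R1 b b' hbb a0]
      exact sum_congr rfl fun a _ => h.gA a0 a b b'
    rw [this, sum_const, card_univ, nsmul_eq_mul, mul_one, ha]
    ring
  · intro a a' b b'
    rw [R2 b b' a a0 a', S2 a a0 b b0 b', h.gB a a0 b' b0, h.gA a' a0 b b', S2 a' a0 b b0 b',
      h.gB a' a0 b' b0]

end

end Pool.Agent.U195.HX
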