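import Pool.Agent.U195.HX.Upper
import Pool.Agent.U195.HX.Mantel

/-! The structure of the extremal 4-graphs, for an abstract partition. -/

set_option autoImplicit false

open Finset
open scoped Classical

namespace Pool.Agent.U195.HX

open Pool.Agent.W846.F2 Pool.Agent.W846.Dens

section
variable {V : Type} [Fintype V] {G : Finset (Finset V)}

theorem tt_nonneg (x y z w : V) : 0 ≤ tt G x y z w := by
  rcases tt01 G x y z w with h | h <;> rw [h]
  norm_num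

theorem mis_zero {P N : V → Prop} [Nonempty {x // P x}] [Nonempty {x // N x}]
    (h : mis G P N = 0) (x y z w : V) (hx : P x) (hy : P y) (hz : P z) (hw : N w) :
    tt G x y z w = 0 := by
  unfold mis at h
  have k1 := av_zero (fun a => av_nonneg fun a' => av_nonneg fun a'' => av_nonneg fun b =>
    tt_nonneg _ _ _ _) h ⟨x, hx⟩
  have k2 := av_zero (fun a' => av_nonneg fun a'' => av_nonneg fun b => tt_nonneg _ _ _ _) k1 ⟨y, hy⟩
  have k3 := av_zero (fun a'' => av_nonneg fun b => tt_nonneg _ _ _ _) k2 ⟨z, hz⟩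
  exact av_zero (fun b => tt_nonneg _ _ _ _) k3 ⟨w, hw⟩

theorem struct_gen (h4 : ∀ A ∈ G, A.card = 4)
    (hK : ¬ ∃ A : Finset V, A.card = 5 ∧ A.powersetCard 4 ⊆ G) {P N : V → Prop}
    (hPN : ∀ x, N x ↔ ¬ P x)
    (hP : ∀ e ∈ G, ∃ x ∈ e, ¬ P x) (hN : ∀ e ∈ G, ∃ x ∈ e, ¬ N x)
    [Nonempty {x // P x}] [Nonempty {x // N x}] {m : ℝ}
    (ha : (Fintype.card {x // P x} : ℝ) = m) (hb : (Fintype.card {x // N x} : ℝ) = m)
    (heq : 24 * (G.card : ℝ) = m ^ 2 * (m - 1) * (11 * m - 16)) {A : Finset V}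
    (hPA : ∀ x, x ∈ A ↔ P x) :
    (∀ x y z w, P x → P y → P z → N w → tt G x y z w = 0) ∧
    (∀ x y z w, N x → N y → N z → P w → tt G x y z w = 0) ∧
    ∃ M : V → V → ℝ, (∀ x y, M x y = 1 ∨ M x y = -1) ∧
      (∀ y y', N y → N y' → y ≠ y' → ∑ x ∈ A, M x y * M x y' = 0) ∧
      ∀ x x' y y', P x → P x' → N y → N y' →
        1 - 2 * (1 - nr G x x' y y') = M x y * M x y' * (M x' y * M x' y') := by
  obtain ⟨h1, h2, h3⟩ := count1_eq h4 hK hPN hP hN ha hb heq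
  have t1 := mis_zero h1
  have t2 := mis_zero h2
  refine ⟨t1, t2, ?_⟩
  obtain ⟨M, m1, m2, m3⟩ := rigid (sys' h4 hK P N)
    (fun a a' b => by rw [nr_deg h4 (by tauto)]; ring)
    (fun a b b' => by rw [nr_deg h4 (by tauto)]; ring)
    (fun a a' a'' b => t1 a a' a'' b a.2 a'.2 a''.2 b.2)
    (fun a a' a'' b => t2 a a' a'' b a.2 a'.2 a''.2 b.2) ha hb h3
  obtain ⟨M', e1, e2⟩ : ∃ M' : V → V → ℝ, (∀ x y, M' x y = 1 ∨ M' x y = -1) ∧
      ∀ x y (hx : P x) (hy : N y), M' x y = M ⟨x, hx⟩ ⟨y, hy⟩ := by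
    refine ⟨fun x y => if h : P x ∧ N y then M ⟨x, h.1⟩ ⟨y, h.2⟩ else 1, ?_, ?_⟩
    · intro x y
      by_cases h : P x ∧ N y
      · simp only [h, and_self, dite_true]; exact m1 _ _
      · simp [h]
    · intro x y hx hy
      exact dif_pos ⟨hx, hy⟩
  refine ⟨M', e1, ?_, ?_⟩
  · intro y y' hy hy' hne
    rw [Finset.sum_subtype A hPA]
    rw [← m2 ⟨y, hy⟩ ⟨y', hy'⟩ (by simpa [Subtype.ext_iff] using hne)]
    refine sum_congr rfl fun x _ => ?_
    rw [e2 x y x.2 hy, e2 x y' x.2 hy']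
  · intro x x' y y' hx hx' hy hy'
    rw [e2 x y hx hy, e2 x y' hx hy', e2 x' y hx' hy, e2 x' y' hx' hy']
    exact m3 ⟨x, hx⟩ ⟨x', hx'⟩ ⟨y, hy⟩ ⟨y', hy'⟩

end

end Pool.Agent.U195.HX
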