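import Pool.Agent.U195.HX.Upper
import Pool.Agent.U195.HX.Struct

/-! Unequal parts are strictly worse; the equality case. -/

set_option autoImplicit false

open Finset

namespace Pool.Agent.U195.HX

open Pool.Agent.W846.F2 Pool.Agent.W846.Dens Pool.Agent.H120R2.Clique

theorem real_lt {a b m : ℝ} (hm : 3 ≤ m) (ha : 1 ≤ a) (hb : 1 ≤ b) (hab : a + b = 2 * m)
    (hd : 4 ≤ (a - b) ^ 2) (h3 : 4 ≤ m ∨ 16 ≤ (a - b) ^ 2) :
    4 * a * b * ((a - 1) * (a - 2) + (b - 1) * (b - 2))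
      + 3 * a ^ 2 * b ^ 2 - 3 * a * b * (a ^ 3 + b ^ 3) / (a ^ 2 + b ^ 2)
      < m ^ 2 * (m - 1) * (11 * m - 16) := by
  have h1 : 3 * a * b * m ≤ 3 * a * b * (a ^ 3 + b ^ 3) / (a ^ 2 + b ^ 2) := by
    rw [le_div_iff₀ (by positivity)]
    have e : 3 * a * b * (a ^ 3 + b ^ 3) - 3 * a * b * m * (a ^ 2 + b ^ 2)
        = 3 * a * b * ((a + b) / 2 * (a - b) ^ 2) := by
      have : m = (a + b) / 2 := by linarith
      rw [this]; ring
    have : 0 ≤ 3 * a * b * ((a + b) / 2 * (a - b) ^ 2) := by positivity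
    linarith
  obtain ⟨d, hd'⟩ : ∃ d, d = (a - b) / 2 := ⟨_, rfl⟩
  have ea : a = m + d := by linarith
  have eb : b = m - d := by linarith
  have k1 : 1 ≤ d ^ 2 := by rw [hd']; nlinarith
  have k2 : 4 ≤ m ∨ 4 ≤ d ^ 2 := by
    rcases h3 with h | h
    · exact Or.inl h
    · right; rw [hd']; nlinarith
  have h2 : 4 * a * b * ((a - 1) * (a - 2) + (b - 1) * (b - 2))
      + 3 * a ^ 2 * b ^ 2 - 3 * a * b * m
      = m ^ 2 * (m - 1) * (11 * m - 16) - d ^ 2 * (6 * m ^ 2 - 27 * m + 16 + 5 * d ^ 2) := by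
    rw [ea, eb]; ring
  have h4 : 0 < 6 * m ^ 2 - 27 * m + 16 + 5 * d ^ 2 := by
    rcases k2 with h | h <;> nlinarith
  have h5 : 0 < d ^ 2 * (6 * m ^ 2 - 27 * m + 16 + 5 * d ^ 2) := by positivity
  linarith

theorem pos_val {m : ℝ} (hm : 3 ≤ m) : 0 < m ^ 2 * (m - 1) * (11 * m - 16) := by
  have h1 : 0 < m - 1 := by linarith
  have h2 : 0 < 11 * m - 16 := by linarith
  positivity

theorem split_lt {m : ℕ} (hm : 3 ≤ m) {G : Finset (Finset (Fin (2 * m)))}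
    {A : Finset (Fin (2 * m))} (h4 : ∀ e ∈ G, e.card = 4) (hK : ¬ HasClique G 4 5)
    (hA : ∀ e ∈ G, ¬ e ⊆ A ∧ ¬ e ⊆ Aᶜ) (hne : A.card ≠ m) :
    24 * (G.card : ℝ) < (m : ℝ) ^ 2 * (m - 1) * (11 * m - 16) := by
  have hm' : (3 : ℝ) ≤ m := by exact_mod_cast hm
  have hc := card_add_card_compl A
  rw [Fintype.card_fin] at hc
  rcases A.eq_empty_or_nonempty with h0 | h0
  · have : G = ∅ := by
      rw [eq_empty_iff_forall_notMem]
      intro e he
      apply (hA e he).2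
      rw [h0]; simp
    rw [this]
    simp only [card_empty, Nat.cast_zero, mul_zero]
    exact pos_val hm'
  rcases (Aᶜ).eq_empty_or_nonempty with h1 | h1
  · have : G = ∅ := by
      rw [eq_empty_iff_forall_notMem]
      intro e he
      apply (hA e he).1
      rw [compl_eq_empty_iff] at h1
      rw [h1]; exact subset_univ _
    rw [this]
    simp only [card_empty, Nat.cast_zero, mul_zero]
    exact pos_val hm'
  have hb := exSplit_bound (2 * m) A h0 h1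
  have hle : (G.card : ℝ) ≤ exSplit (2 * m) A := by exact_mod_cast le_exSplit h4 hK hA
  have pa : 1 ≤ A.card := card_pos.mpr h0
  have pb : 1 ≤ (Aᶜ).card := card_pos.mpr h1
  by_cases h3 : m = 3 ∧ ((A.card = 4 ∧ (Aᶜ).card = 2) ∨ (A.card = 2 ∧ (Aᶜ).card = 4))
  · obtain ⟨rfl, h3⟩ := h3
    rcases h3 with ⟨e1, e2⟩ | ⟨e1, e2⟩
    · rw [e1, e2] at hb
      norm_num at hb ⊢
      linarith
    · rw [e1, e2] at hb
      norm_num at hb ⊢
      linarith
  · refine lt_of_le_of_lt (by linarith) (lt_of_le_of_lt hb ?_)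
    refine real_lt hm' (by exact_mod_cast pa) (by exact_mod_cast pb) (by exact_mod_cast hc) ?_ ?_
    · have : (A.card : ℤ) - (Aᶜ).card ≤ -2 ∨ 2 ≤ (A.card : ℤ) - (Aᶜ).card := by omega
      have h5 : 4 ≤ ((A.card : ℤ) - (Aᶜ).card) ^ 2 := by
        rcases this with h | h <;> nlinarith
      exact_mod_cast h5
    · rcases Nat.lt_or_ge 3 m with h | h
      · left; exact_mod_cast h
      · right
        have hm3 : m = 3 := by omega
        have : (A.card : ℤ) - (Aᶜ).card ≤ -4 ∨ 4 ≤ (A.card : ℤ) - (Aᶜ).card := by omega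
        have h5 : 16 ≤ ((A.card : ℤ) - (Aᶜ).card) ^ 2 := by
          rcases this with h | h <;> nlinarith
        exact_mod_cast h5

section
variable {m : ℕ} {G : Finset (Finset (Fin (2 * m)))} {A : Finset (Fin (2 * m))}

theorem ne_sub {n : ℕ} {A : Finset (Fin n)} (h : 0 < A.card) : Nonempty {x // x ∈ A} := by
  obtain ⟨x, hx⟩ := card_pos.mp h
  exact ⟨⟨x, hx⟩⟩

theorem hP_of {n : ℕ} {G : Finset (Finset (Fin n))} {A : Finset (Fin n)}
    (hA : ∀ e ∈ G, ¬ e ⊆ A ∧ ¬ e ⊆ Aᶜ) : ∀ e ∈ G, ∃ x ∈ e, ¬ x ∈ A := by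
  intro e he
  have := (hA e he).1
  rw [not_subset] at this
  exact this

theorem hN_of {n : ℕ} {G : Finset (Finset (Fin n))} {A : Finset (Fin n)}
    (hA : ∀ e ∈ G, ¬ e ⊆ A ∧ ¬ e ⊆ Aᶜ) : ∀ e ∈ G, ∃ x ∈ e, ¬ x ∈ Aᶜ := by
  intro e he
  have := (hA e he).2
  rw [not_subset] at this
  exact this

theorem half_le (hm : 0 < m) (h4 : ∀ e ∈ G, e.card = 4) (hK : ¬ HasClique G 4 5)
    (hA : ∀ e ∈ G, ¬ e ⊆ A ∧ ¬ e ⊆ Aᶜ) (hc : A.card = m) :
    24 * (G.card : ℝ) ≤ (m : ℝ) ^ 2 * (m - 1) * (11 * m - 16) := by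
  classical
  have hc1 := card_add_card_compl A
  rw [Fintype.card_fin] at hc1
  have hc' : (Aᶜ).card = m := by omega
  have : Nonempty {x // x ∈ A} := ne_sub (by omega)
  have : Nonempty {x // x ∈ Aᶜ} := ne_sub (by omega)
  have h := count1 (V := Fin (2 * m)) (G := G) h4 hK (P := fun x => x ∈ A) (N := fun x => x ∈ Aᶜ)
    (by intro x; simp) (hP_of hA) (hN_of hA) (m := m) (by rw [card_sub, hc]) (by rw [card_sub, hc'])
  have n1 := mis_nonneg G (fun x => x ∈ A) (fun x => x ∈ Aᶜ)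
  have n2 := mis_nonneg G (fun x => x ∈ Aᶜ) (fun x => x ∈ A)
  have : 0 ≤ 4 * (m : ℝ) ^ 2 * (mis G (fun x => x ∈ A) (fun x => x ∈ Aᶜ)
    + mis G (fun x => x ∈ Aᶜ) (fun x => x ∈ A)) := by positivity
  linarith

theorem le_val (h4 : ∀ e ∈ G, e.card = 4) (hK : ¬ HasClique G 4 5)
    (hA : ∀ e ∈ G, ¬ e ⊆ A ∧ ¬ e ⊆ Aᶜ) :
    24 * (G.card : ℝ) ≤ (m : ℝ) ^ 2 * (m - 1) * (11 * m - 16) := by
  have hsub : G ⊆ (univ : Finset (Fin (2 * m))).powersetCard 4 := fun e he =>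
    mem_powersetCard.mpr ⟨subset_univ _, h4 e he⟩
  have hcard := card_le_card hsub
  rw [card_powersetCard, card_univ, Fintype.card_fin] at hcard
  rcases Nat.lt_or_ge m 3 with hm | hm
  · interval_cases m
    · have : G.card = 0 := by simpa using hcard
      rw [this]; norm_num
    · have : G.card = 0 := by
        have e : Nat.choose (2 * 1) 4 = 0 := by decide
        omega
      rw [this]; norm_num
    · have : G.card ≤ 1 := by
        have e : Nat.choose (2 * 2) 4 = 1 := by decide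
        omega
      have : (G.card : ℝ) ≤ 1 := by exact_mod_cast this
      norm_num
      linarith
  · by_cases hc : A.card = m
    · exact half_le (by omega) h4 hK hA hc
    · exact (split_lt hm h4 hK hA hc).le

/-- the extremal 4-graphs come from Hadamard matrices -/
theorem eq_struct (hm : 3 ≤ m) (h4 : ∀ e ∈ G, e.card = 4) (hK : ¬ HasClique G 4 5)
    (hA : ∀ e ∈ G, ¬ e ⊆ A ∧ ¬ e ⊆ Aᶜ)
    (heq : 24 * (G.card : ℝ) = (m : ℝ) ^ 2 * (m - 1) * (11 * m - 16)) :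
    A.card = m ∧ (Aᶜ).card = m ∧
      (∀ x y z w, x ∈ A → y ∈ A → z ∈ A → w ∈ Aᶜ → tt G x y z w = 0) ∧
      (∀ x y z w, x ∈ Aᶜ → y ∈ Aᶜ → z ∈ Aᶜ → w ∈ A → tt G x y z w = 0) ∧
      ∃ M : Fin (2 * m) → Fin (2 * m) → ℝ, (∀ x y, M x y = 1 ∨ M x y = -1) ∧
      (∀ y y', y ∈ Aᶜ → y' ∈ Aᶜ → y ≠ y' → ∑ x ∈ A, M x y * M x y' = 0) ∧
      ∀ x x' y y', x ∈ A → x' ∈ A → y ∈ Aᶜ → y' ∈ Aᶜ →
        1 - 2 * (1 - nr G x x' y y') = M x y * M x y' * (M x' y * M x' y') := by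
  classical
  have hc : A.card = m := by
    by_contra hc
    exact absurd heq (split_lt hm h4 hK hA hc).ne
  have hc1 := card_add_card_compl A
  rw [Fintype.card_fin] at hc1
  have hc' : (Aᶜ).card = m := by omega
  have : Nonempty {x // x ∈ A} := ne_sub (by omega)
  have : Nonempty {x // x ∈ Aᶜ} := ne_sub (by omega)
  exact ⟨hc, hc', struct_gen (V := Fin (2 * m)) (G := G) h4 hK (P := fun x => x ∈ A)
    (N := fun x => x ∈ Aᶜ) (by intro x; simp) (hP_of hA) (hN_of hA) (m := m)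
    (by rw [card_sub, hc]) (by rw [card_sub, hc']) heq (fun x => Iff.rfl)⟩

end

end Pool.Agent.U195.HX
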