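import Pool.Agent.W846.F2.Lower
import Pool.Agent.U195.HX.Equal

/-! The construction from Hadamard matrices. -/

set_option autoImplicit false

open Finset

namespace Pool.Agent.U195.HX

open Pool.Agent.W846.F2 Pool.Agent.H120R2.Clique

section
variable {V : Type} [Fintype V] [DecidableEq V]

/-- for any two columns outside `A`, exactly half of the rows in `A` have an odd number of marked
cells in these two columns -/
def Balanced (A : Finset V) (D : Finset (V × V)) : Prop :=
  ∀ q ∈ Aᶜ.powersetCard 2,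
    2 * (A.filter fun x => Odd (q.filter fun y => (x, y) ∈ D).card).card = A.card

theorem ins_inter {A q : Finset V} {x x' : V} (hq : q ⊆ Aᶜ) (hx : x ∈ A) (hx' : x' ∈ A) :
    (insert x (insert x' q)) ∩ A = {x, x'} := by
  ext t
  simp only [mem_inter, mem_insert, mem_singleton]
  constructor
  · rintro ⟨h | h | h, h2⟩
    · exact Or.inl h
    · exact Or.inr h
    · exact absurd h2 (mem_compl.mp (hq h))
  · rintro (rfl | rfl)
    · exact ⟨Or.inl rfl, hx⟩
    · exact ⟨Or.inr (Or.inl rfl), hx'⟩

theorem ins_sdiff {A q : Finset V} {x x' : V} (hq : q ⊆ Aᶜ) (hx : x ∈ A) (hx' : x' ∈ A) :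
    (insert x (insert x' q)) \ A = q := by
  ext t
  simp only [mem_sdiff, mem_insert]
  constructor
  · rintro ⟨h | h | h, h2⟩
    · rw [h] at h2; exact absurd hx h2
    · rw [h] at h2; exact absurd hx' h2
    · exact h
  · intro h
    exact ⟨Or.inr (Or.inr h), mem_compl.mp (hq h)⟩

theorem odd_count {A : Finset V} {D : Finset (V × V)} (h : Balanced A D) :
    (Aᶜ).card.choose 2 * A.card ^ 2 ≤ 4 * ((qd A 2).filter fun e => Odd (cel A D e)).card := by
  set X : Finset V → Finset V := fun q =>
    A.filter fun x => Odd (q.filter fun y => (x, y) ∈ D).card with hX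
  set S : Finset (Σ _ : Finset V, V × V) :=
    (Aᶜ.powersetCard 2).sigma fun q => X q ×ˢ (A \ X q) with hS
  have hmem : ∀ p ∈ S, p.1 ⊆ Aᶜ ∧ p.1.card = 2 ∧ p.2.1 ∈ A ∧ p.2.1 ∈ X p.1 ∧ p.2.2 ∈ A ∧
      p.2.2 ∉ X p.1 := by
    intro p hp
    rw [hS, mem_sigma, mem_powersetCard, mem_product, mem_sdiff] at hp
    exact ⟨hp.1.1, hp.1.2, (mem_filter.mp hp.2.1).1, hp.2.1, hp.2.2.1, hp.2.2.2⟩
  have h1 : S.card ≤ ((qd A 2).filter fun e => Odd (cel A D e)).card := by
    refine card_le_card_of_injOn (fun p => insert p.2.1 (insert p.2.2 p.1)) ?_ ?_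
    · intro p hp
      obtain ⟨k1, k2, k3, k4, k5, k6⟩ := hmem p hp
      have hne : p.2.1 ≠ p.2.2 := by
        intro hc; rw [hc] at k4; exact k6 k4
      have n1 : p.2.2 ∉ p.1 := fun hc => (mem_compl.mp (k1 hc)) k5
      have n2 : p.2.1 ∉ insert p.2.2 p.1 := by
        rw [mem_insert]
        rintro (hc | hc)
        · exact hne hc
        · exact (mem_compl.mp (k1 hc)) k3
      have e1 := ins_inter k1 k3 k5
      have e2 := ins_sdiff k1 k3 k5
      simp only [mem_coe, mem_filter, qd, mem_powersetCard, subset_univ, true_and]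
      refine ⟨⟨?_, ?_⟩, ?_⟩
      · rw [card_insert_of_notMem n2, card_insert_of_notMem n1, k2]
      · rw [e1, card_pair hne]
      · rw [cel_eq, e1, e2, sum_pair hne]
        have o1 : Odd (p.1.filter fun y => (p.2.1, y) ∈ D).card := (mem_filter.mp k4).2
        have o2 : Even (p.1.filter fun y => (p.2.2, y) ∈ D).card := by
          rw [← Nat.not_odd_iff_even]
          intro hc
          exact k6 (mem_filter.mpr ⟨k5, hc⟩)
        exact o1.add_even o2
    · intro p hp r hr hpr
      obtain ⟨k1, k2, k3, k4, k5, k6⟩ := hmem p hp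
      obtain ⟨l1, l2, l3, l4, l5, l6⟩ := hmem r hr
      have e1 := ins_inter k1 k3 k5
      have e2 := ins_sdiff k1 k3 k5
      have f1 := ins_inter l1 l3 l5
      have f2 := ins_sdiff l1 l3 l5
      simp only at hpr
      rw [hpr] at e1 e2
      have hq : p.1 = r.1 := e2.symm.trans f2
      have hxx : ({p.2.1, p.2.2} : Finset V) = {r.2.1, r.2.2} := e1.symm.trans f1
      rw [← hq] at l4 l6
      have g1 : p.2.1 = r.2.1 := by
        have : p.2.1 ∈ ({r.2.1, r.2.2} : Finset V) := by rw [← hxx]; simp
        rw [mem_insert, mem_singleton] at this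
        rcases this with hc | hc
        · exact hc
        · rw [hc] at k4; exact absurd k4 l6
      have g2 : p.2.2 = r.2.2 := by
        have : p.2.2 ∈ ({r.2.1, r.2.2} : Finset V) := by rw [← hxx]; simp
        rw [mem_insert, mem_singleton] at this
        rcases this with hc | hc
        · rw [hc] at k6; exact absurd l4 k6
        · exact hc
      obtain ⟨p1, p2, p3⟩ := p
      obtain ⟨r1, r2, r3⟩ := r
      simp only at hq g1 g2
      subst hq; subst g1; subst g2
      rfl
  have h2 : 4 * S.card = (Aᶜ).card.choose 2 * A.card ^ 2 := by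
    rw [hS, card_sigma, mul_sum, ← card_powersetCard, ← smul_eq_mul, ← sum_const]
    refine sum_congr rfl fun q hq => ?_
    have k : 2 * (X q).card = A.card := h q hq
    have k2 : (A \ X q).card = (X q).card := by
      rw [card_sdiff_of_subset (filter_subset _ _)]
      change A.card - (X q).card = _
      omega
    rw [card_product, k2, ← k]
    ring
  omega

theorem gr_ge {A : Finset V} {D : Finset (V × V)} (h : Balanced A D) {m : ℕ} (hA : A.card = m)
    (hA' : (Aᶜ).card = m) :
    (m : ℝ) ^ 2 * (m - 1) * (11 * m - 16) ≤ 24 * ((gr A D).card : ℝ) := by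
  have h1 := qd_card A (k := 1) (by norm_num)
  have h3 := qd_card A (k := 3) (by norm_num)
  have h2 := odd_count h
  rw [hA, hA'] at h1 h2 h3
  have e1 : 4 - 1 = 3 := rfl
  have e3 : 4 - 3 = 1 := rfl
  rw [Nat.choose_one_right, e1] at h1
  rw [e3, Nat.choose_one_right] at h3
  have h4 : 8 * (m * m.choose 3) + m.choose 2 * m ^ 2 ≤ 4 * (gr A D).card := by
    rw [gr_card]
    have : m.choose 3 * m = m * m.choose 3 := mul_comm _ _
    omega
  have h5 : 8 * ((m : ℝ) * (m.choose 3 : ℝ)) + (m.choose 2 : ℝ) * (m : ℝ) ^ 2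
      ≤ 4 * ((gr A D).card : ℝ) := by exact_mod_cast h4
  have c2 : (m.choose 2 : ℝ) = m * (m - 1) / 2 := Nat.cast_choose_two ℝ m
  have c3 : (m.choose 3 : ℝ) = m * (m - 1) * (m - 2) / 6 := by
    rcases Nat.lt_or_ge m 2 with hm | hm
    · rw [Nat.choose_eq_zero_of_lt (by omega)]
      interval_cases m <;> simp
    · have := Nat.add_one_mul_choose_eq (m - 1) 2
      have k : m - 1 + 1 = m := by omega
      rw [k] at this
      have k2 : m.choose 3 * 3 = m * (m - 1).choose 2 := by
        have e : (2 + 1) = 3 := rfl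
        rw [e] at this
        linarith
      have k3 : ((m - 1).choose 2 : ℝ) = ((m : ℝ) - 1) * (m - 2) / 2 := by
        rw [Nat.cast_choose_two ℝ (m - 1)]
        have : ((m - 1 : ℕ) : ℝ) = (m : ℝ) - 1 := by
          rw [Nat.cast_sub (by omega)]; norm_num
        rw [this]; ring
      have k4 : (m.choose 3 : ℝ) * 3 = m * ((m - 1).choose 2 : ℝ) := by exact_mod_cast k2
      rw [k3] at k4
      linarith
  rw [c2, c3] at h5
  nlinarith

end

end Pool.Agent.U195.HX
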