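import Pool.Agent.U195.HX.Build

/-! Hadamard matrices and the extremal 4-graphs. -/

set_option autoImplicit false

open Finset

namespace Pool.Agent.U195.HX

open Pool.Agent.W846.F2 Pool.Agent.W846.Dens Pool.Agent.H120R2.Clique

/-- there is a Hadamard matrix of order `m`: an `m × m` matrix with entries `1` and `-1` whose rows
are pairwise orthogonal -/
def HadamardOrder (m : ℕ) : Prop :=
  ∃ H : Fin m → Fin m → ℝ, (∀ i j, H i j = 1 ∨ H i j = -1) ∧
    ∀ i i', i ≠ i' → ∑ j, H i j * H i' j = 0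

theorem had_zero : HadamardOrder 0 := ⟨fun _ _ => 1, fun _ _ => Or.inl rfl, fun i => i.elim0⟩

theorem had_one : HadamardOrder 1 :=
  ⟨fun _ _ => 1, fun _ _ => Or.inl rfl, fun i i' h => absurd (Subsingleton.elim i i') h⟩

theorem had_two : HadamardOrder 2 := by
  refine ⟨fun i j => if i = 1 ∧ j = 1 then -1 else 1, ?_, ?_⟩
  · intro i j
    by_cases h : i = 1 ∧ j = 1
    · right; simp [h]
    · left; simp only [h, if_false]
  · intro i i' h
    fin_cases i <;> fin_cases i' <;> simp_all

theorem had_mul {m n : ℕ} (h1 : HadamardOrder m) (h2 : HadamardOrder n) :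
    HadamardOrder (m * n) := by
  obtain ⟨H, a1, a2⟩ := h1
  obtain ⟨K, b1, b2⟩ := h2
  refine ⟨fun i j => H (finProdFinEquiv.symm i).1 (finProdFinEquiv.symm j).1
    * K (finProdFinEquiv.symm i).2 (finProdFinEquiv.symm j).2, ?_, ?_⟩
  · intro i j
    beta_reduce
    rcases a1 (finProdFinEquiv.symm i).1 (finProdFinEquiv.symm j).1 with k | k <;>
    rcases b1 (finProdFinEquiv.symm i).2 (finProdFinEquiv.symm j).2 with l | l <;>
    rw [k, l] <;> norm_num
  · intro i i' hne
    rw [Equiv.sum_comp finProdFinEquiv.symm (fun q : Fin m × Fin n =>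
      H (finProdFinEquiv.symm i).1 q.1 * K (finProdFinEquiv.symm i).2 q.2
      * (H (finProdFinEquiv.symm i').1 q.1 * K (finProdFinEquiv.symm i').2 q.2))]
    have hne' : finProdFinEquiv.symm i ≠ finProdFinEquiv.symm i' := fun h =>
      hne (finProdFinEquiv.symm.injective h)
    generalize finProdFinEquiv.symm i = p at *
    generalize finProdFinEquiv.symm i' = p' at *
    rw [Fintype.sum_prod_type]
    have e : ∑ x : Fin m, ∑ y : Fin n, H p.1 x * K p.2 y * (H p'.1 x * K p'.2 y)
        = (∑ x, H p.1 x * H p'.1 x) * ∑ y, K p.2 y * K p'.2 y := by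
      rw [sum_mul_sum]
      refine sum_congr rfl fun x _ => sum_congr rfl fun y _ => ?_
      ring
    change ∑ x : Fin m, ∑ y : Fin n, H p.1 x * K p.2 y * (H p'.1 x * K p'.2 y) = 0
    rw [e]
    by_cases h : p.1 = p'.1
    · have : p.2 ≠ p'.2 := fun h' => hne' (Prod.ext h h')
      rw [b2 _ _ this, mul_zero]
    · rw [a2 _ _ h, zero_mul]

theorem had_pow (k : ℕ) : HadamardOrder (2 ^ k) := by
  induction k with
  | zero => exact had_one
  | succ k ih => rw [pow_succ]; exact had_mul ih had_two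

section
variable {V : Type} [Fintype V] [DecidableEq V]

open Classical in
/-- the cells with entry `-1` -/
noncomputable def neg (M : V → V → ℝ) : Finset (V × V) := univ.filter fun p => M p.1 p.2 = -1

theorem mem_neg {M : V → V → ℝ} {x y : V} : (x, y) ∈ neg M ↔ M x y = -1 := by
  unfold neg
  simp

theorem odd_pair {M : V → V → ℝ} (hM : ∀ x y, M x y = 1 ∨ M x y = -1) (x : V) {y y' : V}
    (hy : y ≠ y') :
    (Odd (({y, y'} : Finset V).filter fun y => (x, y) ∈ neg M).card ∧ M x y * M x y' = -1) ∨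
    (¬ Odd (({y, y'} : Finset V).filter fun y => (x, y) ∈ neg M).card ∧ M x y * M x y' = 1) := by
  simp only [filter_insert, filter_singleton, mem_neg]
  rcases hM x y with k | k <;> rcases hM x y' with l | l <;> rw [k, l]
  · right
    constructor <;> norm_num
  · left
    constructor <;> norm_num
  · left
    constructor <;> norm_num
  · right
    constructor
    · rw [if_pos rfl, if_pos rfl, card_insert_of_notMem (by simpa using hy), card_singleton]
      decide
    · norm_num

theorem balanced_of {A : Finset V} {M : V → V → ℝ} (hM : ∀ x y, M x y = 1 ∨ M x y = -1)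
    (ho : ∀ y y', y ∈ Aᶜ → y' ∈ Aᶜ → y ≠ y' → ∑ x ∈ A, M x y * M x y' = 0) :
    Balanced A (neg M) := by
  intro q hq
  obtain ⟨h1, h2⟩ := mem_powersetCard.mp hq
  obtain ⟨y, y', hy, rfl⟩ := card_eq_two.mp h2
  have h3 := ho y y' (h1 (by simp)) (h1 (by simp)) hy
  have h4 : ∑ x ∈ A, M x y * M x y' = (A.card : ℝ)
      - 2 * ((A.filter fun x => Odd (({y, y'} : Finset V).filter fun y => (x, y) ∈ neg M).card).card : ℝ) := by
    have e : ∀ x ∈ A, M x y * M x y' = 1 - 2 *
        (if Odd (({y, y'} : Finset V).filter fun y => (x, y) ∈ neg M).card then (1 : ℝ) else 0) := by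
      intro x _
      rcases odd_pair hM x hy with ⟨k, l⟩ | ⟨k, l⟩
      · rw [if_pos k, l]; norm_num
      · rw [if_neg k, l]; norm_num
    rw [sum_congr rfl e, sum_sub_distrib, ← mul_sum, sum_const, nsmul_eq_mul, mul_one, card_filter]
    push_cast
    rfl
  rw [h3] at h4
  have h5 : (2 : ℝ) * ((A.filter fun x => Odd (({y, y'} : Finset V).filter fun y => (x, y) ∈ neg M).card).card : ℝ)
      = A.card := by linarith
  exact_mod_cast h5

end

section
variable {m : ℕ} {G : Finset (Finset (Fin (2 * m)))} {A : Finset (Fin (2 * m))}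

theorem mem_of_nr {x y z w : Fin (2 * m)} (h : nr G x y z w = 0) :
    ({x, y, z, w} : Finset (Fin (2 * m))) ∈ G := by
  have h' : non G x y z w = 0 := by
    unfold nr at h; exact_mod_cast h
  refine Eq.subst (motive := fun s => s ∈ G) ?_ (non_zero h')
  ext t; simp only [mem_insert, mem_singleton]

theorem nr_of_mem {x y z w : Fin (2 * m)} (h : ({x, y, z, w} : Finset (Fin (2 * m))) ∈ G) :
    nr G x y z w = 0 := by
  unfold nr non
  rw [if_pos]
  · simp
  · refine Eq.subst (motive := fun s => s ∈ G) ?_ h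
    ext t; simp only [mem_insert, mem_singleton]

theorem mem_of_tt {x y z w : Fin (2 * m)} (h1 : x ≠ y) (h2 : x ≠ z) (h3 : y ≠ z)
    (h : tt G x y z w = 0) : ({x, y, z, w} : Finset (Fin (2 * m))) ∈ G := by
  unfold tt at h
  rw [if_neg (by tauto)] at h
  exact mem_of_nr h

theorem eq_gr (h4 : ∀ e ∈ G, e.card = 4)
    (hA : ∀ e ∈ G, ¬ e ⊆ A ∧ ¬ e ⊆ Aᶜ)
    (t1 : ∀ x y z w, x ∈ A → y ∈ A → z ∈ A → w ∈ Aᶜ → tt G x y z w = 0)
    (t2 : ∀ x y z w, x ∈ Aᶜ → y ∈ Aᶜ → z ∈ Aᶜ → w ∈ A → tt G x y z w = 0)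
    {M : Fin (2 * m) → Fin (2 * m) → ℝ} (hM : ∀ x y, M x y = 1 ∨ M x y = -1)
    (m3 : ∀ x x' y y', x ∈ A → x' ∈ A → y ∈ Aᶜ → y' ∈ Aᶜ →
        1 - 2 * (1 - nr G x x' y y') = M x y * M x y' * (M x' y * M x' y')) :
    G = gr A (neg M) := by
  have two : ∀ e : Finset (Fin (2 * m)), e.card = 4 → (e ∩ A).card = 2 →
      (e ∈ G ↔ Odd (cel A (neg M) e)) := by
    intro e he hk
    have hk2 : (e \ A).card = 2 := by
      have := card_inter_add_card_sdiff e A
      omega
    obtain ⟨x, x', hx, e1⟩ := card_eq_two.mp hk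
    obtain ⟨y, y', hy, e2⟩ := card_eq_two.mp hk2
    have hxA : x ∈ A := by
      have : x ∈ e ∩ A := by rw [e1]; simp
      exact (mem_inter.mp this).2
    have hxA' : x' ∈ A := by
      have : x' ∈ e ∩ A := by rw [e1]; simp
      exact (mem_inter.mp this).2
    have hyA : y ∈ Aᶜ := by
      have : y ∈ e \ A := by rw [e2]; simp
      exact mem_compl.mpr (mem_sdiff.mp this).2
    have hyA' : y' ∈ Aᶜ := by
      have : y' ∈ e \ A := by rw [e2]; simp
      exact mem_compl.mpr (mem_sdiff.mp this).2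
    have ee : e = {x, x', y, y'} := by
      have h : (e ∩ A) ∪ (e \ A) = e := by
        rw [union_comm]; exact sdiff_union_inter e A
      rw [← h, e1, e2]
      ext t; simp only [mem_union, mem_singleton, mem_insert]; tauto
    have key := m3 x x' y y' hxA hxA' hyA hyA'
    rw [cel_eq, e1, e2, sum_pair hx]
    have o1 := odd_pair hM x hy
    have o2 := odd_pair hM x' hy
    constructor
    · intro hm
      rw [ee] at hm
      rw [nr_of_mem hm] at key
      rcases o1 with ⟨k1, l1⟩ | ⟨k1, l1⟩ <;> rcases o2 with ⟨k2, l2⟩ | ⟨k2, l2⟩ <;>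
        rw [l1, l2] at key
      · norm_num at key
      · exact k1.add_even (Nat.not_odd_iff_even.mp k2)
      · exact (Nat.not_odd_iff_even.mp k1).add_odd k2
      · norm_num at key
    · intro ho
      rw [ee]
      apply mem_of_nr
      rcases o1 with ⟨k1, l1⟩ | ⟨k1, l1⟩ <;> rcases o2 with ⟨k2, l2⟩ | ⟨k2, l2⟩ <;>
        rw [l1, l2] at key
      · exact absurd (k1.add_odd k2) (Nat.not_even_iff_odd.mpr ho)
      · linarith
      · linarith
      · exact absurd ((Nat.not_odd_iff_even.mp k1).add (Nat.not_odd_iff_even.mp k2))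
          (Nat.not_even_iff_odd.mpr ho)
  ext e
  unfold gr
  rw [mem_filter, mem_powersetCard]
  constructor
  · intro he
    have hc := h4 e he
    refine ⟨⟨subset_univ _, hc⟩, ?_⟩
    have hsum := card_inter_add_card_sdiff e A
    have n4 : (e ∩ A).card ≠ 4 := by
      intro h
      apply (hA e he).1
      have : e ∩ A = e := eq_of_subset_of_card_le inter_subset_left (by omega)
      rw [← this]; exact inter_subset_right
    have n0 : (e ∩ A).card ≠ 0 := by
      intro h
      apply (hA e he).2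
      rw [card_eq_zero] at h
      intro t ht
      rw [mem_compl]
      intro htA
      have : t ∈ e ∩ A := mem_inter.mpr ⟨ht, htA⟩
      rw [h] at this
      simp at this
    have hle : (e ∩ A).card ≤ 4 := by omega
    by_cases h2 : (e ∩ A).card = 2
    · exact Or.inr (Or.inr ⟨h2, (two e hc h2).mp he⟩)
    · omega
  · rintro ⟨⟨-, hc⟩, h⟩
    have hsum := card_inter_add_card_sdiff e A
    have hU : (e ∩ A) ∪ (e \ A) = e := by
      rw [union_comm]; exact sdiff_union_inter e A
    rcases h with h | h | ⟨h, ho⟩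
    · have h' : (e \ A).card = 3 := by omega
      obtain ⟨w, e1⟩ := card_eq_one.mp h
      obtain ⟨x, y, z, hxy, hxz, hyz, e2⟩ := card_eq_three.mp h'
      have hw : w ∈ A := by
        have : w ∈ e ∩ A := by rw [e1]; simp
        exact (mem_inter.mp this).2
      have hin : ∀ t ∈ ({x, y, z} : Finset (Fin (2 * m))), t ∈ Aᶜ := by
        intro t ht
        rw [← e2] at ht
        exact mem_compl.mpr (mem_sdiff.mp ht).2
      have ee : e = {x, y, z, w} := by
        rw [← hU, e1, e2]
        ext t; simp only [mem_union, mem_singleton, mem_insert]; tauto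
      rw [ee]
      exact mem_of_tt hxy hxz hyz (t2 x y z w (hin x (by simp)) (hin y (by simp))
        (hin z (by simp)) hw)
    · have h' : (e \ A).card = 1 := by omega
      obtain ⟨w, e1⟩ := card_eq_one.mp h'
      obtain ⟨x, y, z, hxy, hxz, hyz, e2⟩ := card_eq_three.mp h
      have hw : w ∈ Aᶜ := by
        have : w ∈ e \ A := by rw [e1]; simp
        exact mem_compl.mpr (mem_sdiff.mp this).2
      have hin : ∀ t ∈ ({x, y, z} : Finset (Fin (2 * m))), t ∈ A := by
        intro t ht
        rw [← e2] at ht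
        exact (mem_inter.mp ht).2
      have ee : e = {x, y, z, w} := by
        rw [← hU, e1, e2]
        ext t; simp only [mem_union, mem_singleton, mem_insert]; tauto
      rw [ee]
      exact mem_of_tt hxy hxz hyz (t1 x y z w (hin x (by simp)) (hin y (by simp))
        (hin z (by simp)) hw)
    · exact (two e hc h).mpr ho

/-- the extremal 4-graphs -/
theorem extremal_iff (hm : 3 ≤ m) (h4 : ∀ e ∈ G, e.card = 4) (hK : ¬ HasClique G 4 5)
    (hA : ∀ e ∈ G, ¬ e ⊆ A ∧ ¬ e ⊆ Aᶜ) :
    24 * (G.card : ℝ) = (m : ℝ) ^ 2 * (m - 1) * (11 * m - 16) ↔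
      A.card = m ∧ ∃ D, Balanced A D ∧ G = gr A D := by
  constructor
  · intro heq
    obtain ⟨h1, -, t1, t2, M, m1, m2, m3⟩ := eq_struct hm h4 hK hA heq
    exact ⟨h1, neg M, balanced_of m1 m2, eq_gr h4 hA t1 t2 m1 m3⟩
  · rintro ⟨h1, D, h2, rfl⟩
    have hc1 := card_add_card_compl A
    rw [Fintype.card_fin] at hc1
    exact le_antisymm (le_val h4 hK hA) (gr_ge h2 h1 (by omega))

theorem had_of_eq (hm : 3 ≤ m) (h4 : ∀ e ∈ G, e.card = 4) (hK : ¬ HasClique G 4 5)
    (hA : ∀ e ∈ G, ¬ e ⊆ A ∧ ¬ e ⊆ Aᶜ)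
    (heq : 24 * (G.card : ℝ) = (m : ℝ) ^ 2 * (m - 1) * (11 * m - 16)) : HadamardOrder m := by
  obtain ⟨h1, h2, t1, t2, M, m1, m2, m3⟩ := eq_struct hm h4 hK hA heq
  let f := A.equivFinOfCardEq h1
  let g := (Aᶜ).equivFinOfCardEq h2
  refine ⟨fun i j => M (f.symm j) (g.symm i), fun i j => m1 _ _, ?_⟩
  intro i i' hne
  have hne' : ((g.symm i : {x // x ∈ Aᶜ}) : Fin (2 * m)) ≠ (g.symm i' : {x // x ∈ Aᶜ}) := by
    intro h
    exact hne (g.symm.injective (Subtype.ext h))
  have h3 := m2 _ _ (g.symm i).2 (g.symm i').2 hne'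
  rw [← Finset.sum_coe_sort] at h3
  rw [← Equiv.sum_comp f.symm] at h3
  exact h3

theorem exTwo_le (m : ℕ) : 24 * (exTwo (2 * m) : ℝ) ≤ (m : ℝ) ^ 2 * (m - 1) * (11 * m - 16) := by
  obtain ⟨A, -, hA⟩ := Finset.exists_mem_eq_sup (univ : Finset (Finset (Fin (2 * m))))
    univ_nonempty (exSplit (2 * m))
  have h2 : exTwo (2 * m) = exSplit (2 * m) A := hA
  obtain ⟨G, k1, k2, k3, k4⟩ := exSplit_attained (2 * m) A
  rw [h2, k4]
  exact le_val k1 k2 k3

theorem exTwo_eq_iff (m : ℕ) :
    24 * (exTwo (2 * m) : ℝ) = (m : ℝ) ^ 2 * (m - 1) * (11 * m - 16) ↔ HadamardOrder m := by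
  constructor
  · intro heq
    rcases Nat.lt_or_ge m 3 with hm | hm
    · interval_cases m
      · exact had_zero
      · exact had_one
      · exact had_two
    · obtain ⟨A, -, hA⟩ := Finset.exists_mem_eq_sup (univ : Finset (Finset (Fin (2 * m))))
        univ_nonempty (exSplit (2 * m))
      have h2 : exTwo (2 * m) = exSplit (2 * m) A := hA
      obtain ⟨G, k1, k2, k3, k4⟩ := exSplit_attained (2 * m) A
      rw [h2, k4] at heq
      exact had_of_eq hm k1 k2 k3 heq
  · rintro ⟨H, a1, a2⟩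
    refine le_antisymm (exTwo_le m) ?_
    have hle : m ≤ 2 * m := by omega
    set A : Finset (Fin (2 * m)) := univ.map (Fin.castLEEmb hle) with hA
    have hc : A.card = m := by rw [hA, card_map, card_univ, Fintype.card_fin]
    have hc1 := card_add_card_compl A
    rw [Fintype.card_fin] at hc1
    have hmem : ∀ y ∈ Aᶜ, m ≤ (y : ℕ) := by
      intro y hy
      by_contra hcon
      push Not at hcon
      rw [mem_compl, hA, mem_map] at hy
      exact hy ⟨⟨y, hcon⟩, mem_univ _, Fin.ext rfl⟩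
    obtain ⟨M, m1, m2⟩ : ∃ M : Fin (2 * m) → Fin (2 * m) → ℝ, (∀ x y, M x y = 1 ∨ M x y = -1) ∧
        ∀ (j i : Fin m) (y : Fin (2 * m)), (y : ℕ) = m + i → M (Fin.castLE hle j) y = H i j := by
      refine ⟨fun x y => if h : (x : ℕ) < m ∧ (y : ℕ) - m < m then
        H ⟨(y : ℕ) - m, h.2⟩ ⟨x, h.1⟩ else 1, ?_, ?_⟩
      · intro x y
        by_cases h : (x : ℕ) < m ∧ (y : ℕ) - m < m
        · simp only [h, and_self, dite_true]; exact a1 _ _
        · simp only [h, dite_false]; simp
      · intro j i y hy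
        have h : ((Fin.castLE hle j : Fin (2 * m)) : ℕ) < m ∧ (y : ℕ) - m < m := by
          constructor
          · exact j.2
          · rw [hy]; have := i.2; omega
        simp only [h, and_self, dite_true]
        congr 1
        exact Fin.ext (by simp [hy])
    have hbal : Balanced A (neg M) := by
      refine balanced_of m1 ?_
      intro y y' hy hy' hne
      have g1 := hmem y hy
      have g2 := hmem y' hy'
      have l1 := y.2
      have l2 := y'.2
      have i1 : (y : ℕ) - m < m := by omega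
      have i2 : (y' : ℕ) - m < m := by omega
      rw [hA, sum_map]
      have := a2 ⟨(y : ℕ) - m, i1⟩ ⟨(y' : ℕ) - m, i2⟩ (by
        intro h
        have := Fin.mk.inj_iff.mp h
        exact hne (Fin.ext (by omega)))
      rw [← this]
      refine sum_congr rfl fun j _ => ?_
      change M (Fin.castLE hle j) y * M (Fin.castLE hle j) y' = _
      rw [m2 j ⟨(y : ℕ) - m, i1⟩ y (by simp; omega), m2 j ⟨(y' : ℕ) - m, i2⟩ y' (by simp; omega)]
    refine (gr_ge hbal hc (by omega)).trans ?_
    have h5 := le_exSplit (gr_uniform A (neg M)) (gr_free A (neg M)) (gr_split A (neg M))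
    have h6 : exSplit (2 * m) A ≤ exTwo (2 * m) :=
      Finset.le_sup (f := exSplit (2 * m)) (mem_univ A)
    have h7 : ((gr A (neg M)).card : ℝ) ≤ exTwo (2 * m) := by exact_mod_cast h5.trans h6
    linarith

theorem exTwo_pow (k : ℕ) : 24 * (exTwo (2 ^ (k + 1)) : ℝ)
    = ((2 : ℝ) ^ k) ^ 2 * ((2 : ℝ) ^ k - 1) * (11 * (2 : ℝ) ^ k - 16) := by
  have h := (exTwo_eq_iff (2 ^ k)).mpr (had_pow k)
  have e : 2 ^ (k + 1) = 2 * 2 ^ k := by rw [pow_succ]; ring
  rw [e, h]
  push_cast
  rfl

end

end Pool.Agent.U195.HX
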