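import Pool.Agent.W846.F2.Main

/-! The main inequality with the contribution of the degenerate pairs. -/

set_option autoImplicit false

open Finset

namespace Pool.Agent.U195.HX

open Pool.Agent.W846.F2

section
variable {α β : Type} [Fintype α] [Fintype β]

open Classical in
theorem av_diag (c : ℝ) (b : β) :
    av (fun b' => if b = b' then c else 0) = c / Fintype.card β := by
  unfold av; simp

variable [Nonempty α] [Nonempty β]

theorem half' {g : α → α → β → β → ℝ} {t : α → α → α → β → ℝ}
    {s : β → β → β → α → ℝ} (h : Sys g t s) (hdg : ∀ a a' b, g a a' b b = 0)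
    {o al ga gp be v c : ℝ}
    (h1 : 0 ≤ o) (h2 : 0 ≤ al) (h3 : 0 < ga) (h4 : 0 < gp) (h5 : be ^ 2 ≤ al * ga)
    (h6 : be ^ 2 ≤ o / 2 * gp)
    (hc : ∀ a b b', v * (av fun x => g a x b b')
      - 8 * be * (av fun x => g a x b b') * ((av fun x => g a x b b') - 1 / 2) ≤ c) :
    (av fun a => av fun a' => av fun b => av fun b' =>
      (2 * v * g a a' b b' * ((av fun w => s b b' w a) + av fun w => s b b' w a')
      - (2 * o * ((1 - g a a' b b') * ((av fun x => g a x b b') + (av fun x => g a' x b b') - 1) ^ 2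
          + g a a' b b' * ((av fun x => g a x b b') - (av fun x => g a' x b b')) ^ 2)
        + 4 * al * g a a' b b' * ((av fun x => g a x b b') + (av fun x => g a' x b b') - 1) ^ 2
        + 4 * ga * g a a' b b' * ((av fun w => s b b' w a) + av fun w => s b b' w a') ^ 2
        + 4 * gp * g a a' b b' * ((av fun w => s b b' w a) - av fun w => s b b' w a') ^ 2)))
    ≤ 4 * c * (av fun a => av fun b => av fun b' => av fun w => s b b' w a)
      - 2 * o / (Fintype.card β : ℝ) := by
  classical
  set ps : α → α → β → β → ℝ := fun a a' b b' => g a a' b b' *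
    ((2 * v - 16 * be * ((av fun x => g a x b b') - 1 / 2)) * (av fun w => s b b' w a)) with hps
  have step1 : (av fun a => av fun a' => av fun b => av fun b' =>
      (2 * v * g a a' b b' * ((av fun w => s b b' w a) + av fun w => s b b' w a')
      - (2 * o * ((1 - g a a' b b') * ((av fun x => g a x b b') + (av fun x => g a' x b b') - 1) ^ 2
          + g a a' b b' * ((av fun x => g a x b b') - (av fun x => g a' x b b')) ^ 2)
        + 4 * al * g a a' b b' * ((av fun x => g a x b b') + (av fun x => g a' x b b') - 1) ^ 2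
        + 4 * ga * g a a' b b' * ((av fun w => s b b' w a) + av fun w => s b b' w a') ^ 2
        + 4 * gp * g a a' b b' * ((av fun w => s b b' w a) - av fun w => s b b' w a') ^ 2)))
      ≤ av fun a => av fun a' => av fun b => av fun b' =>
        ((ps a a' b b' + ps a' a b b') - (if b = b' then 2 * o else 0)) := by
    refine av_mono fun a => av_mono fun a' => av_mono fun b => av_mono fun b' => ?_
    simp only [hps]
    rw [h.gA a a' b b']
    by_cases hbb : b = b'
    · subst hbb
      have e0 : (av fun x => g a x b b) = 0 := by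
        simp only [hdg]; exact av_const 0
      have e1 : (av fun x => g a' x b b) = 0 := by
        simp only [hdg]; exact av_const 0
      rw [hdg, e0, e1, if_pos rfl]
      apply le_of_eq
      ring
    rw [if_neg hbb, sub_zero]
    set G := g a a' b b'
    set d := av fun x => g a x b b'
    set d' := av fun x => g a' x b b'
    set u := av fun w => s b b' w a
    set u' := av fun w => s b b' w a'
    have hG : G = 0 ∨ G = 1 := h.g01 a a' b b'
    have hal : 0 ≤ al := h2
    rcases hG with hG | hG <;> rw [hG]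
    · have : 0 ≤ o * (d + d' - 1) ^ 2 := by positivity
      nlinarith
    · have k1 : 0 ≤ al * (d + d' - 1) ^ 2 + ga * (u + u') ^ 2 - 2 * be * ((d + d' - 1) * (u + u')) := by
        have e : ga * (al * (d + d' - 1) ^ 2 + ga * (u + u') ^ 2
            - 2 * be * ((d + d' - 1) * (u + u')))
            = (ga * (u + u') - be * (d + d' - 1)) ^ 2 + (al * ga - be ^ 2) * (d + d' - 1) ^ 2 := by
          ring
        have e2 : 0 ≤ (ga * (u + u') - be * (d + d' - 1)) ^ 2
            + (al * ga - be ^ 2) * (d + d' - 1) ^ 2 := by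
          have : 0 ≤ al * ga - be ^ 2 := by linarith
          positivity
        rw [← e] at e2
        exact nonneg_of_mul_nonneg_right e2 h3
      have k2 : 0 ≤ o / 2 * (d - d') ^ 2 + gp * (u - u') ^ 2 - 2 * be * ((d - d') * (u - u')) := by
        have e : gp * (o / 2 * (d - d') ^ 2 + gp * (u - u') ^ 2
            - 2 * be * ((d - d') * (u - u')))
            = (gp * (u - u') - be * (d - d')) ^ 2 + (o / 2 * gp - be ^ 2) * (d - d') ^ 2 := by
          ring
        have e2 : 0 ≤ (gp * (u - u') - be * (d - d')) ^ 2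
            + (o / 2 * gp - be ^ 2) * (d - d') ^ 2 := by
          have : 0 ≤ o / 2 * gp - be ^ 2 := by linarith
          positivity
        rw [← e] at e2
        exact nonneg_of_mul_nonneg_right e2 h4
      nlinarith
  have step2 : (av fun a => av fun a' => av fun b => av fun b' =>
        ((ps a a' b b' + ps a' a b b') - (if b = b' then 2 * o else 0)))
      = 2 * (av fun a => av fun a' => av fun b => av fun b' => ps a a' b b')
        - 2 * o / (Fintype.card β : ℝ) := by
    simp only [av_sub, av_add, av_diag, av_const]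
    rw [av_comm (fun a a' => av fun b => av fun b' => ps a' a b b')]
    ring
  have step3 : (av fun a => av fun a' => av fun b => av fun b' => ps a a' b b')
      = av fun a => av fun b => av fun b' => (av fun x => g a x b b') *
        ((2 * v - 16 * be * ((av fun x => g a x b b') - 1 / 2)) * (av fun w => s b b' w a)) := by
    congr 1
    funext a
    rw [av_comm]
    congr 1
    funext b
    rw [av_comm]
    congr 1
    funext b'
    simp only [hps]
    rw [av_mulr]
  rw [step2, step3] at step1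
  refine step1.trans ?_
  refine sub_le_sub_right ?_ _
  rw [← av_mul, ← av_mul]
  refine av_mono fun a => ?_
  rw [← av_mul, ← av_mul]
  refine av_mono fun b => ?_
  rw [← av_mul, ← av_mul]
  refine av_mono fun b' => ?_
  have hu0 : 0 ≤ av fun w => s b b' w a :=
    av_nonneg fun w => by rcases h.s01 b b' w a with k | k <;> rw [k] <;> norm_num
  have hc' := hc a b b'
  set d := av fun x => g a x b b'
  set u := av fun w => s b b' w a
  have key := mul_le_mul_of_nonneg_right hc' hu0
  nlinarith

theorem core' {g : α → α → β → β → ℝ} {t : α → α → α → β → ℝ}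
    {s : β → β → β → α → ℝ} (h : Sys g t s) (hdg : ∀ a a' b, g a a' b b = 0)
    (hdg' : ∀ a b b', g a a b b' = 0)
    {o1 v1 al1 ga1 gp1 be1 c1 o2 v2 al2 ga2 gp2 be2 c2 : ℝ}
    (R1 : InR o1 v2 al1 ga2 gp2) (R2 : InR o2 v1 al2 ga1 gp1)
    (p1 : 0 ≤ o1) (p2 : 0 ≤ al1) (p3 : 0 < ga1) (p4 : 0 < gp1) (p5 : be1 ^ 2 ≤ al1 * ga1)
    (p6 : be1 ^ 2 ≤ o1 / 2 * gp1)
    (pc : ∀ d : ℝ, 0 ≤ d → d ≤ 1 - 1 / (Fintype.card α : ℝ) →
      v1 * d - 8 * be1 * d * (d - 1 / 2) ≤ c1)
    (q1 : 0 ≤ o2) (q2 : 0 ≤ al2) (q3 : 0 < ga2) (q4 : 0 < gp2) (q5 : be2 ^ 2 ≤ al2 * ga2)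
    (q6 : be2 ^ 2 ≤ o2 / 2 * gp2)
    (qc : ∀ d : ℝ, 0 ≤ d → d ≤ 1 - 1 / (Fintype.card β : ℝ) →
      v2 * d - 8 * be2 * d * (d - 1 / 2) ≤ c2) :
    o1 / (Fintype.card β : ℝ) + o2 / (Fintype.card α : ℝ) ≤
      (o1 + o2) * (1 - 2 * av fun a => av fun a' => av fun b => av fun b' => g a a' b b')
      + 2 * c1 * (av fun a => av fun b => av fun b' => av fun w => s b b' w a)
      + 2 * c2 * (av fun b => av fun a => av fun a' => av fun w => t a a' w b) := by
  classical
  have dA : ∀ a b b', 0 ≤ (av fun x => g a x b b') ∧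
      (av fun x => g a x b b') ≤ 1 - 1 / (Fintype.card α : ℝ) := by
    intro a b b'
    refine ⟨av_nonneg fun x => by rcases h.g01 a x b b' with k | k <;> rw [k] <;> norm_num, ?_⟩
    have : (av fun x => g a x b b') ≤ av fun x => (1 - if a = x then (1 : ℝ) else 0) := by
      refine av_mono fun x => ?_
      by_cases hx : a = x
      · subst hx
        rw [hdg', if_pos rfl]; norm_num
      · rw [if_neg hx]
        rcases h.g01 a x b b' with k | k <;> rw [k] <;> norm_num
    rwa [av_sub, av_const, av_diag] at this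
  have dB : ∀ b a a', 0 ≤ (av fun x => g a a' b x) ∧
      (av fun x => g a a' b x) ≤ 1 - 1 / (Fintype.card β : ℝ) := by
    intro b a a'
    refine ⟨av_nonneg fun x => by rcases h.g01 a a' b x with k | k <;> rw [k] <;> norm_num, ?_⟩
    have : (av fun x => g a a' b x) ≤ av fun x => (1 - if b = x then (1 : ℝ) else 0) := by
      refine av_mono fun x => ?_
      by_cases hx : b = x
      · subst hx
        rw [hdg, if_pos rfl]; norm_num
      · rw [if_neg hx]
        rcases h.g01 a a' b x with k | k <;> rw [k] <;> norm_num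
    rwa [av_sub, av_const, av_diag] at this
  have I := side h R1
  have II := side h.swap R2
  rw [comm4 (α := α) (β := β)] at II
  have H1 := half' h hdg p1 p2 p3 p4 p5 p6 (fun a b b' => pc _ (dA a b b').1 (dA a b b').2)
  have H2 := half' h.swap (fun b b' a => hdg' a b b') q1 q2 q3 q4 q5 q6
    (fun b a a' => qc _ (dB b a a').1 (dB b a a').2)
  rw [comm4 (α := α) (β := β)] at H2
  have e := add_nonneg I II
  rw [← E4_add] at e
  have f := add_le_add H1 H2
  rw [← E4_add] at f
  have k : (av fun a : α => av fun a' : α => av fun b : β => av fun b' : β =>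
      ((o1 + o2) * (2 * (1 - 2 * g a a' b b')))) = (o1 + o2) * 2 *
        (1 - 2 * av fun a => av fun a' => av fun b => av fun b' => g a a' b b') := by
    simp only [av_mul, av_sub, av_const]
    ring
  have e2 : 0 ≤ av fun a : α => av fun a' : α => av fun b : β => av fun b' : β =>
      ((o1 + o2) * (2 * (1 - 2 * g a a' b b')) +
      ((2 * v1 * g a a' b b' * ((av fun w => s b b' w a) + av fun w => s b b' w a')
      - (2 * o1 * ((1 - g a a' b b') * ((av fun x => g a x b b') + (av fun x => g a' x b b') - 1) ^ 2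
          + g a a' b b' * ((av fun x => g a x b b') - (av fun x => g a' x b b')) ^ 2)
        + 4 * al1 * g a a' b b' * ((av fun x => g a x b b') + (av fun x => g a' x b b') - 1) ^ 2
        + 4 * ga1 * g a a' b b' * ((av fun w => s b b' w a) + av fun w => s b b' w a') ^ 2
        + 4 * gp1 * g a a' b b' * ((av fun w => s b b' w a) - av fun w => s b b' w a') ^ 2)) +
      (2 * v2 * g a a' b b' * ((av fun w => t a a' w b) + av fun w => t a a' w b')
      - (2 * o2 * ((1 - g a a' b b') * ((av fun x => g a a' b x) + (av fun x => g a a' b' x) - 1) ^ 2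
          + g a a' b b' * ((av fun x => g a a' b x) - (av fun x => g a a' b' x)) ^ 2)
        + 4 * al2 * g a a' b b' * ((av fun x => g a a' b x) + (av fun x => g a a' b' x) - 1) ^ 2
        + 4 * ga2 * g a a' b b' * ((av fun w => t a a' w b) + av fun w => t a a' w b') ^ 2
        + 4 * gp2 * g a a' b b' * ((av fun w => t a a' w b) - av fun w => t a a' w b') ^ 2)))) := by
    refine e.trans (le_of_eq ?_)
    congr 1
    funext a
    congr 1
    funext a'
    congr 1
    funext b
    congr 1
    funext b'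
    ring
  rw [E4_add, k] at e2
  have e3 : 2 * (o1 / (Fintype.card β : ℝ)) = 2 * o1 / (Fintype.card β : ℝ) := by ring
  have e4 : 2 * (o2 / (Fintype.card α : ℝ)) = 2 * o2 / (Fintype.card α : ℝ) := by ring
  linarith

/-- the weighted inequality for every ratio, with the gain from the degenerate pairs -/
theorem main' {g : α → α → β → β → ℝ} {t : α → α → α → β → ℝ}
    {s : β → β → β → α → ℝ} (h : Sys g t s) (hdg : ∀ a a' b, g a a' b b = 0)
    (hdg' : ∀ a b b', g a a b b' = 0) {x : ℝ} (hx : 0 < x) :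
    x / (Fintype.card β : ℝ) + x⁻¹ / (Fintype.card α : ℝ) ≤
      (x + x⁻¹) * (1 - 2 * (av fun a => av fun a' => av fun b => av fun b' => g a a' b b')
      + 4 / 3 * (x * (av fun b => av fun a => av fun a' => av fun w => t a a' w b)
        + (1 / x) * (av fun a => av fun b => av fun b' => av fun w => s b b' w a))) := by
  set Eg := av fun a => av fun a' => av fun b => av fun b' => g a a' b b'
  set Et := av fun b => av fun a => av fun a' => av fun w => t a a' w b
  set Es := av fun a => av fun b => av fun b' => av fun w => s b b' w a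
  have hx' : x ≠ 0 := hx.ne'
  have cA : ∀ d : ℝ, d ≤ 1 - 1 / (Fintype.card α : ℝ) → d ≤ 1 := fun d hd =>
    hd.trans (by have : 0 ≤ 1 / (Fintype.card α : ℝ) := by positivity
                 linarith)
  have cB : ∀ d : ℝ, d ≤ 1 - 1 / (Fintype.card β : ℝ) → d ≤ 1 := fun d hd =>
    hd.trans (by have : 0 ≤ 1 / (Fintype.card β : ℝ) := by positivity
                 linarith)
  by_cases hm : 1 / 2 ≤ x ∧ x ≤ 2
  · have fam : ∀ y : ℝ, 1 / 2 ≤ y → y ≤ 2 →
        InR (18 * y) (12 * (y ^ 2 + y + 1)) 3 (3 * y ^ 2) (y ^ 3) := by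
      intro y h1 h2
      rcases le_total 1 y with k | k
      · exact fam_ge k h2
      · exact fam_le h1 k
    have R1 : InR x (2 / 3 * (x ^ 2 + x + 1)) (1 / 6) (x ^ 2 / 6) (x ^ 3 / 18) := by
      refine ((fam x hm.1 hm.2).smul (c := 1 / 18) (by norm_num)).congr ?_ ?_ ?_ ?_ ?_ <;> ring
    have hy1 : 1 / 2 ≤ x⁻¹ := by
      rw [one_div]; exact inv_anti₀ hx hm.2
    have hy2 : x⁻¹ ≤ 2 := by
      rw [inv_le_comm₀ hx (by norm_num)]; linarith [hm.1]
    have R2 : InR (x⁻¹) (2 / 3 * ((x⁻¹) ^ 2 + x⁻¹ + 1)) (1 / 6) ((x⁻¹) ^ 2 / 6) ((x⁻¹) ^ 3 / 18) := by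
      refine ((fam x⁻¹ hy1 hy2).smul (c := 1 / 18) (by norm_num)).congr ?_ ?_ ?_ ?_ ?_ <;> ring
    have hy : 0 < x⁻¹ := inv_pos.mpr hx
    have quad : ∀ y : ℝ, 0 < y → ∀ d : ℝ, 0 ≤ d → d ≤ 1 →
        2 / 3 * (y ^ 2 + y + 1) * d - 8 * (y / 6) * d * (d - 1 / 2) ≤ 2 / 3 * (1 + y ^ 2) := by
      intro y hy d h0 h1
      nlinarith [mul_nonneg (sub_nonneg.mpr h1) (add_nonneg (sq_nonneg (1 - y))
        (mul_nonneg (mul_nonneg (by norm_num : (0:ℝ) ≤ 2) hy.le) (sub_nonneg.mpr h1)))]
    have key := core' h hdg hdg' (be1 := x⁻¹ / 6) (c1 := 2 / 3 * (1 + (x⁻¹) ^ 2)) (be2 := x / 6)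
      (c2 := 2 / 3 * (1 + x ^ 2)) R1 R2 hx.le (by norm_num) (by positivity) (by positivity)
      (by apply le_of_eq; ring) (by apply le_of_eq; field_simp; norm_num)
      (fun d h0 h1 => quad x⁻¹ hy d h0 (cA d h1)) hy.le (by norm_num) (by positivity)
      (by positivity)
      (by apply le_of_eq; ring) (by apply le_of_eq; field_simp; norm_num)
      (fun d h0 h1 => quad x hx d h0 (cB d h1))
    have e : (x + x⁻¹) * (1 - 2 * Eg + 4 / 3 * (x * Et + (1 / x) * Es))
        = (x + x⁻¹) * (1 - 2 * Eg) + 2 * (2 / 3 * (1 + (x⁻¹) ^ 2)) * Es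
          + 2 * (2 / 3 * (1 + x ^ 2)) * Et := by
      field_simp
      ring
    rw [e]
    exact key
  · have hm' : x ≤ 1 / 2 ∨ 2 ≤ x := by
      rcases le_or_gt (1 / 2) x with k | k
      · right
        by_contra h'
        push Not at h'
        exact hm ⟨k, h'.le⟩
      · exact Or.inl k.le
    have hy : 0 < x⁻¹ := inv_pos.mpr hx
    have R1 : InR x (2 * x) (x / 6) (x / 6) (x / 18) := by
      refine (r0.smul (c := x / 18) (by positivity)).congr ?_ ?_ ?_ ?_ ?_ <;> ring
    have R2 : InR (x⁻¹) (2 * x⁻¹) (x⁻¹ / 6) (x⁻¹ / 6) (x⁻¹ / 18) := by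
      refine (r0.smul (c := x⁻¹ / 18) (by positivity)).congr ?_ ?_ ?_ ?_ ?_ <;> ring
    have quad : ∀ y : ℝ, 0 < y → (y ≤ 1 / 2 ∨ 2 ≤ y) → ∀ d : ℝ, 0 ≤ d → d ≤ 1 →
        2 * y * d - 8 * (1 / 6) * d * (d - 1 / 2) ≤ 2 / 3 * (1 + y ^ 2) := by
      intro y hy hy' d h0 h1
      rcases hy' with k | k
      · have a1 : 0 ≤ (1 - d) * (1 - 2 * y) := mul_nonneg (by linarith) (by linarith)
        have a2 : 0 ≤ y * (1 - 2 * y) := mul_nonneg hy.le (by linarith)
        nlinarith [sq_nonneg (1 - d), sq_nonneg (y - d), mul_nonneg h0 a1, mul_nonneg h0 hy.le]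
      · nlinarith [sq_nonneg (y - 2 * d), sq_nonneg (1 - d), mul_nonneg h0 (sub_nonneg.mpr k),
          mul_nonneg (sub_nonneg.mpr h1) (sub_nonneg.mpr k)]
    have hym : x⁻¹ ≤ 1 / 2 ∨ 2 ≤ x⁻¹ := by
      rcases hm' with k | k
      · right
        rw [le_inv_comm₀ (by norm_num) hx]; linarith
      · left
        rw [one_div]; exact inv_anti₀ (by norm_num) k
    have key := core' h hdg hdg' (be1 := 1 / 6) (c1 := 2 / 3 * (1 + (x⁻¹) ^ 2)) (be2 := 1 / 6)
      (c2 := 2 / 3 * (1 + x ^ 2)) R1 R2 hx.le (by positivity) (by positivity) (by positivity)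
      (by apply le_of_eq; field_simp) (by apply le_of_eq; field_simp; norm_num)
      (fun d h0 h1 => quad x⁻¹ hy hym d h0 (cA d h1)) hy.le (by positivity) (by positivity)
      (by positivity)
      (by apply le_of_eq; field_simp) (by apply le_of_eq; field_simp; norm_num)
      (fun d h0 h1 => quad x hx hm' d h0 (cB d h1))
    have e : (x + x⁻¹) * (1 - 2 * Eg + 4 / 3 * (x * Et + (1 / x) * Es))
        = (x + x⁻¹) * (1 - 2 * Eg) + 2 * (2 / 3 * (1 + (x⁻¹) ^ 2)) * Es
          + 2 * (2 / 3 * (1 + x ^ 2)) * Et := by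
      field_simp
      ring
    rw [e]
    exact key

/-- equal parts: the coefficient of the missing triples is smaller than `4 / 3` -/
theorem main1 {g : α → α → β → β → ℝ} {t : α → α → α → β → ℝ}
    {s : β → β → β → α → ℝ} (h : Sys g t s) (hdg : ∀ a a' b, g a a' b b = 0)
    (hdg' : ∀ a b b', g a a b b' = 0) (hab : Fintype.card α = Fintype.card β) :
    1 / (Fintype.card α : ℝ) ≤
      1 - 2 * (av fun a => av fun a' => av fun b => av fun b' => g a a' b b')
      + 4 / 3 * (1 - (1 / (Fintype.card α : ℝ)) ^ 2) *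
        ((av fun b => av fun a => av fun a' => av fun w => t a a' w b)
        + (av fun a => av fun b => av fun b' => av fun w => s b b' w a)) := by
  set Eg := av fun a => av fun a' => av fun b => av fun b' => g a a' b b'
  set Et := av fun b => av fun a => av fun a' => av fun w => t a a' w b
  set Es := av fun a => av fun b => av fun b' => av fun w => s b b' w a
  have R : InR 1 2 (1 / 6) (1 / 6) (1 / 18) := by
    refine (r0.smul (c := 1 / 18) (by norm_num)).congr ?_ ?_ ?_ ?_ ?_ <;> norm_num
  have quad : ∀ e d : ℝ, 0 ≤ e → d ≤ 1 - e →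
      2 * d - 8 * (1 / 6) * d * (d - 1 / 2) ≤ 4 / 3 * (1 - e ^ 2) := by
    intro e d h0 h1
    nlinarith [mul_nonneg (sub_nonneg.mpr h1) h0, sq_nonneg (1 - e - d)]
  have h0 : 0 ≤ 1 / (Fintype.card α : ℝ) := by positivity
  have key := core' h hdg hdg' (be1 := 1 / 6) (c1 := 4 / 3 * (1 - (1 / (Fintype.card α : ℝ)) ^ 2))
    (be2 := 1 / 6) (c2 := 4 / 3 * (1 - (1 / (Fintype.card α : ℝ)) ^ 2)) R R (by norm_num)
    (by norm_num) (by norm_num) (by norm_num) (by norm_num) (by norm_num)
    (fun d _ h1 => quad _ d h0 h1) (by norm_num) (by norm_num) (by norm_num) (by norm_num)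
    (by norm_num) (by norm_num) (fun d _ h1 => quad _ d h0 (by rw [hab]; exact h1))
  rw [← hab] at key
  linarith

end

end Pool.Agent.U195.HX
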