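import Pool.Agent.W846.F2.Limit
import Pool.Agent.U195.HX.Half

/-! The exact counting: degenerate quadruples are taken into account. -/

set_option autoImplicit false

open Finset
open scoped Classical

namespace Pool.Agent.U195.HX

open Pool.Agent.W846.F2 Pool.Agent.W846.Dens

theorem deg_sum (α : Type) [Fintype α] :
    (∑ x : α, ∑ y : α, ∑ z : α, (if x = y ∨ x = z ∨ y = z then (1 : ℝ) else 0))
      = 3 * (Fintype.card α : ℝ) ^ 2 - 2 * Fintype.card α := by
  have h : ∀ x y z : α, (if x = y ∨ x = z ∨ y = z then (1 : ℝ) else 0)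
      = (if x = y then 1 else 0) + (if x = z then 1 else 0) + (if y = z then 1 else 0)
        - 2 * ((if x = y then 1 else 0) * (if y = z then 1 else 0)) := by
    intro x y z
    by_cases h1 : x = y <;> by_cases h2 : x = z <;> by_cases h3 : y = z
    · rw [if_pos (by tauto), if_pos h1, if_pos h2, if_pos h3]; norm_num
    · exact absurd (h1.symm.trans h2) h3
    · exact absurd (h1.trans h3) h2
    · rw [if_pos (by tauto), if_pos h1, if_neg h2, if_neg h3]; norm_num
    · exact absurd (h2.trans h3.symm) h1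
    · rw [if_pos (by tauto), if_neg h1, if_pos h2, if_neg h3]; norm_num
    · rw [if_pos (by tauto), if_neg h1, if_neg h2, if_pos h3]; norm_num
    · rw [if_neg (by tauto), if_neg h1, if_neg h2, if_neg h3]; norm_num
  simp only [h, sum_sub_distrib, sum_add_distrib, ← mul_sum]
  simp only [sum_ite_eq, mem_univ, if_true, sum_const, card_univ, nsmul_eq_mul, mul_one,
    ← mul_sum]
  ring

section
variable {V : Type} [Fintype V] {G : Finset (Finset V)}

/-- non-edges, degenerate triples are not counted -/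
noncomputable def tt (G : Finset (Finset V)) (x y z w : V) : ℝ :=
  if x = y ∨ x = z ∨ y = z then 0 else nr G x y z w

theorem tt01 (G : Finset (Finset V)) (x y z w : V) : tt G x y z w = 0 ∨ tt G x y z w = 1 := by
  unfold tt
  split_ifs
  · exact Or.inl rfl
  · exact nr01 G x y z w

theorem tt12 (G : Finset (Finset V)) (x y z w : V) : tt G y x z w = tt G x y z w := by
  unfold tt
  rw [nr12]
  have : (y = x ∨ y = z ∨ x = z) ↔ (x = y ∨ x = z ∨ y = z) := by
    constructor <;> rintro (h | h | h) <;> simp [h]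
  simp only [this]

theorem tt23 (G : Finset (Finset V)) (x y z w : V) : tt G x z y w = tt G x y z w := by
  unfold tt
  rw [nr23]
  have : (x = z ∨ x = y ∨ z = y) ↔ (x = y ∨ x = z ∨ y = z) := by
    constructor <;> rintro (h | h | h) <;> simp [h]
  simp only [this]

theorem nr_zero (h4 : ∀ A ∈ G, A.card = 4) {x y z w : V} (h : nr G x y z w = 0) :
    x ≠ y ∧ x ≠ z ∧ x ≠ w ∧ y ≠ z ∧ y ≠ w ∧ z ≠ w := by
  have h' : non G x y z w = 0 := by
    unfold nr at h; exact_mod_cast h
  exact card_four (h4 _ (non_zero h'))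

theorem nr_deg (h4 : ∀ A ∈ G, A.card = 4) {x y z w : V}
    (h : x = y ∨ x = z ∨ x = w ∨ y = z ∨ y = w ∨ z = w) : nr G x y z w = 1 := by
  rcases nr01 G x y z w with k | k
  · obtain ⟨a, b, c, d, e, f⟩ := nr_zero h4 k
    exfalso
    rcases h with h | h | h | h | h | h
    · exact a h
    · exact b h
    · exact c h
    · exact d h
    · exact e h
    · exact f h
  · exact k

theorem nr_tt (h4 : ∀ A ∈ G, A.card = 4) (x y z w : V) :
    nr G x y z w = (if x = y ∨ x = z ∨ y = z then 1 else 0) + tt G x y z w := by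
  unfold tt
  split_ifs with h
  · rw [nr_deg h4 (by tauto), add_zero]
  · rw [zero_add]

theorem sys' (h4 : ∀ A ∈ G, A.card = 4)
    (hK : ¬ ∃ A : Finset V, A.card = 5 ∧ A.powersetCard 4 ⊆ G) (P N : V → Prop) :
    Sys (α := {x // P x}) (β := {x // N x}) (fun a a' b b' => 1 - nr G a a' b b')
      (fun a a' a'' b => tt G a a' a'' b) (fun b b' b'' a => tt G b b' b'' a) where
  g01 a a' b b' := by
    rcases nr01 G a a' b b' with h | h <;> rw [h] <;> simp
  t01 a a' a'' b := tt01 G _ _ _ _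
  s01 b b' b'' a := tt01 G _ _ _ _
  gA a a' b b' := by rw [nr12]
  gB a a' b b' := by rw [nr34]
  t12 a a' a'' b := tt12 G _ _ _ _
  t23 a a' a'' b := tt23 G _ _ _ _
  s12 b b' b'' a := tt12 G _ _ _ _
  s23 b b' b'' a := tt23 G _ _ _ _
  covA a a' a'' b b' h1 h2 h3 h5 h6 := by
    have k1 : nr G a a' b b' = 0 := by linarith
    have k2 : nr G a a'' b b' = 0 := by linarith
    have k3 : nr G a' a'' b b' = 0 := by linarith
    have d1 := (nr_zero h4 k1).1
    have d2 := (nr_zero h4 k2).1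
    have d3 := (nr_zero h4 k3).1
    have e5 := nr_tt h4 (a : V) a' a'' b
    have e6 := nr_tt h4 (a : V) a' a'' b'
    rw [if_neg (by tauto)] at e5 e6
    have := nr_cover h4 hK (a : V) a' a'' b b'
    linarith
  covB b b' b'' a a' h1 h2 h3 h5 h6 := by
    have k1 : nr G a a' b b' = 0 := by linarith
    have k2 : nr G a a' b b'' = 0 := by linarith
    have k3 : nr G a a' b' b'' = 0 := by linarith
    have d1 := (nr_zero h4 k1).2.2.2.2.2
    have d2 := (nr_zero h4 k2).2.2.2.2.2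
    have d3 := (nr_zero h4 k3).2.2.2.2.2
    have e5 := nr_tt h4 (b : V) b' b'' a
    have e6 := nr_tt h4 (b : V) b' b'' a'
    rw [if_neg (by tauto)] at e5 e6
    have := nr_cover h4 hK (b : V) b' b'' a a'
    have e1 := nr_flip G (a : V) a' b b'
    have e2 := nr_flip G (a : V) a' b b''
    have e3 := nr_flip G (a : V) a' b' b''
    linarith

/-- the average number of the missing `3 + 1` sets -/
noncomputable def mis (G : Finset (Finset V)) (P N : V → Prop) : ℝ :=
  av fun a : {x // P x} => av fun a' : {x // P x} => av fun a'' : {x // P x} =>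
    av fun b : {x // N x} => tt G a a' a'' b

/-- the average number of the `2 + 2` sets -/
noncomputable def cro (G : Finset (Finset V)) (P N : V → Prop) : ℝ :=
  av fun a : {x // P x} => av fun a' : {x // P x} => av fun b : {x // N x} =>
    av fun b' : {x // N x} => (1 - nr G a a' b b')

theorem mis_nonneg (G : Finset (Finset V)) (P N : V → Prop) : 0 ≤ mis G P N := by
  unfold mis
  refine av_nonneg fun a => av_nonneg fun a' => av_nonneg fun a'' => av_nonneg fun b => ?_
  rcases tt01 G a a' a'' b with h | h <;> rw [h]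
  norm_num

theorem W_tt (h4 : ∀ A ∈ G, A.card = 4) (P N : V → Prop) [Nonempty {x // P x}]
    [Nonempty {x // N x}] :
    W (nr G) P P P N = (3 * (Fintype.card {x // P x} : ℝ) ^ 2 - 2 * Fintype.card {x // P x})
      * Fintype.card {x // N x}
      + (Fintype.card {x // P x} : ℝ) ^ 3 * Fintype.card {x // N x} * mis G P N := by
  unfold W
  have e : ∀ (x y z : {x // P x}) (w : {x // N x}), nr G x y z w
      = (if x = y ∨ x = z ∨ y = z then 1 else 0) + tt G x y z w := by
    intro x y z w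
    rw [nr_tt h4]
    simp only [Subtype.ext_iff]
  simp only [e, sum_add_distrib]
  have e2 := av4 (fun (a a' a'' : {x // P x}) (b : {x // N x}) => tt G a a' a'' b)
  rw [← e2]
  have e3 : (∑ x : {x // P x}, ∑ y : {x // P x}, ∑ z : {x // P x}, ∑ _w : {x // N x},
      (if x = y ∨ x = z ∨ y = z then (1 : ℝ) else 0))
      = (3 * (Fintype.card {x // P x} : ℝ) ^ 2 - 2 * Fintype.card {x // P x})
      * Fintype.card {x // N x} := by
    rw [← deg_sum]
    simp only [sum_const, card_univ, nsmul_eq_mul, sum_mul]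
    refine sum_congr rfl fun x _ => sum_congr rfl fun y _ => sum_congr rfl fun z _ => ?_
    ring
  rw [e3]
  unfold mis
  ring

/-- the exact count -/
theorem count' (h4 : ∀ A ∈ G, A.card = 4) {P N : V → Prop}
    (hPN : ∀ x, N x ↔ ¬ P x)
    (hP : ∀ e ∈ G, ∃ x ∈ e, ¬ P x) (hN : ∀ e ∈ G, ∃ x ∈ e, ¬ N x)
    [Nonempty {x // P x}] [Nonempty {x // N x}] {a b : ℝ}
    (ha : (Fintype.card {x // P x} : ℝ) = a) (hb : (Fintype.card {x // N x} : ℝ) = b) :
    24 * (G.card : ℝ) ≤ 4 * a * b * ((a - 1) * (a - 2)) + 4 * a * b * ((b - 1) * (b - 2))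
      + 6 * a ^ 2 * b ^ 2 * cro G P N - 4 * a ^ 3 * b * mis G P N - 4 * a * b ^ 3 * mis G N P := by
  have hs := non_sum G h4
  have hs' : (∑ a, ∑ b, ∑ c, ∑ d, nr G a b c d) + 24 * (G.card : ℝ) ≤ (Fintype.card V : ℝ) ^ 4 := by
    unfold nr
    exact_mod_cast hs
  have hc : (Fintype.card V : ℝ) = Fintype.card {x // P x} + Fintype.card {x // N x} := by
    have := split hPN (fun _ => (1 : ℝ))
    simpa using this
  have w1 := av4 (fun (a a' : {x // P x}) (b b' : {x // N x}) => nr G a a' b b')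
  have v1 : W (nr G) P P N N = _ := w1.symm
  have k1 : cro G P N
      = 1 - av fun a : {x // P x} => av fun a' : {x // P x} => av fun b : {x // N x} =>
        av fun b' : {x // N x} => nr G a a' b b' := by
    unfold cro
    simp only [av_sub, av_const]
  rw [split_sym (nr12 G) (nr23 G) (nr34 G) hPN, mono_one hP, mono_one hN, hc, W_tt h4, W_tt h4,
    v1, ha, hb] at hs'
  rw [k1]
  linarith

/-- the weighted inequality in terms of `mis` and `cro` -/
theorem wt (h4 : ∀ A ∈ G, A.card = 4)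
    (hK : ¬ ∃ A : Finset V, A.card = 5 ∧ A.powersetCard 4 ⊆ G) {P N : V → Prop}
    [Nonempty {x // P x}] [Nonempty {x // N x}] {a b : ℝ}
    (ha : (Fintype.card {x // P x} : ℝ) = a) (hb : (Fintype.card {x // N x} : ℝ) = b)
    {x : ℝ} (hx : 0 < x) :
    x / b + x⁻¹ / a ≤ (x + x⁻¹) * (1 - 2 * cro G P N
      + 4 / 3 * (x * mis G P N + (1 / x) * mis G N P)) := by
  have key := main' (sys' h4 hK P N) (fun a a' b => by rw [nr_deg h4 (by tauto)]; ring)
    (fun a b b' => by rw [nr_deg h4 (by tauto)]; ring) hx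
  have k2 : (av fun b : {x // N x} => av fun a : {x // P x} => av fun a' : {x // P x} =>
      av fun w : {x // P x} => tt G a a' w b) = mis G P N := by
    unfold mis
    rw [av_comm]
    congr 1
    funext a
    rw [av_comm]
    congr 1
    funext a'
    rw [av_comm]
  have k3 : (av fun a : {x // P x} => av fun b : {x // N x} => av fun b' : {x // N x} =>
      av fun w : {x // N x} => tt G b b' w a) = mis G N P := by
    unfold mis
    rw [av_comm]
    congr 1
    funext a
    rw [av_comm]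
    congr 1
    funext a'
    rw [av_comm]
  rw [k2, k3, ha, hb] at key
  exact key

theorem wt1 (h4 : ∀ A ∈ G, A.card = 4)
    (hK : ¬ ∃ A : Finset V, A.card = 5 ∧ A.powersetCard 4 ⊆ G) {P N : V → Prop}
    [Nonempty {x // P x}] [Nonempty {x // N x}] {m : ℝ}
    (hab : Fintype.card {x // P x} = Fintype.card {x // N x})
    (ha : (Fintype.card {x // P x} : ℝ) = m) :
    1 / m ≤ 1 - 2 * cro G P N
      + 4 / 3 * (1 - (1 / m) ^ 2) * (mis G P N + mis G N P) := by
  have key := main1 (sys' h4 hK P N) (fun a a' b => by rw [nr_deg h4 (by tauto)]; ring)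
    (fun a b b' => by rw [nr_deg h4 (by tauto)]; ring) hab
  have k2 : (av fun b : {x // N x} => av fun a : {x // P x} => av fun a' : {x // P x} =>
      av fun w : {x // P x} => tt G a a' w b) = mis G P N := by
    unfold mis
    rw [av_comm]
    congr 1
    funext a
    rw [av_comm]
    congr 1
    funext a'
    rw [av_comm]
  have k3 : (av fun a : {x // P x} => av fun b : {x // N x} => av fun b' : {x // N x} =>
      av fun w : {x // N x} => tt G b b' w a) = mis G N P := by
    unfold mis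
    rw [av_comm]
    congr 1
    funext a
    rw [av_comm]
    congr 1
    funext a'
    rw [av_comm]
  rw [k2, k3, ha] at key
  exact key

/-- the bound for every partition -/
theorem count2 (h4 : ∀ A ∈ G, A.card = 4)
    (hK : ¬ ∃ A : Finset V, A.card = 5 ∧ A.powersetCard 4 ⊆ G) {P N : V → Prop}
    (hPN : ∀ x, N x ↔ ¬ P x)
    (hP : ∀ e ∈ G, ∃ x ∈ e, ¬ P x) (hN : ∀ e ∈ G, ∃ x ∈ e, ¬ N x)
    [Nonempty {x // P x}] [Nonempty {x // N x}] {a b : ℝ}
    (ha : (Fintype.card {x // P x} : ℝ) = a) (hb : (Fintype.card {x // N x} : ℝ) = b) :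
    24 * (G.card : ℝ) ≤ 4 * a * b * ((a - 1) * (a - 2) + (b - 1) * (b - 2))
      + 3 * a ^ 2 * b ^ 2 - 3 * a * b * (a ^ 3 + b ^ 3) / (a ^ 2 + b ^ 2) := by
  have pa : 0 < a := by rw [← ha]; exact_mod_cast Fintype.card_pos
  have pb : 0 < b := by rw [← hb]; exact_mod_cast Fintype.card_pos
  have h1 := count' h4 hPN hP hN ha hb
  have h2 := wt h4 hK ha hb (x := a / b) (by positivity)
  generalize cro G P N = X at *
  generalize mis G P N = Y at *
  generalize mis G N P = Z at *
  have e1 : a / b / b + (a / b)⁻¹ / a = (a ^ 3 + b ^ 3) / (a ^ 2 * b ^ 2) := by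
    field_simp
  have e2 : a / b + (a / b)⁻¹ = (a ^ 2 + b ^ 2) / (a * b) := by
    field_simp
  rw [e1, e2] at h2
  have e3 : (a ^ 2 + b ^ 2) / (a * b) * (1 - 2 * X + 4 / 3 * (a / b * Y + 1 / (a / b) * Z))
      = (a ^ 2 + b ^ 2) / (3 * a ^ 3 * b ^ 3) *
        (3 * a ^ 2 * b ^ 2 - 6 * a ^ 2 * b ^ 2 * X + 4 * a ^ 3 * b * Y + 4 * a * b ^ 3 * Z) := by
    field_simp
    ring
  rw [e3] at h2
  have h3 : 3 * a * b * (a ^ 3 + b ^ 3) / (a ^ 2 + b ^ 2) ≤
      3 * a ^ 2 * b ^ 2 - 6 * a ^ 2 * b ^ 2 * X + 4 * a ^ 3 * b * Y + 4 * a * b ^ 3 * Z := by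
    rw [div_le_iff₀ (by positivity)]
    rw [div_le_iff₀ (by positivity)] at h2
    have e4 : (a ^ 2 + b ^ 2) / (3 * a ^ 3 * b ^ 3) *
        (3 * a ^ 2 * b ^ 2 - 6 * a ^ 2 * b ^ 2 * X + 4 * a ^ 3 * b * Y + 4 * a * b ^ 3 * Z)
        * (a ^ 2 * b ^ 2) * (3 * a * b) =
        (3 * a ^ 2 * b ^ 2 - 6 * a ^ 2 * b ^ 2 * X + 4 * a ^ 3 * b * Y + 4 * a * b ^ 3 * Z)
          * (a ^ 2 + b ^ 2) := by
      field_simp
    have h5 := mul_le_mul_of_nonneg_right h2 (show 0 ≤ 3 * a * b by positivity)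
    rw [e4] at h5
    linarith
  linarith

/-- equal parts -/
theorem count1 (h4 : ∀ A ∈ G, A.card = 4)
    (hK : ¬ ∃ A : Finset V, A.card = 5 ∧ A.powersetCard 4 ⊆ G) {P N : V → Prop}
    (hPN : ∀ x, N x ↔ ¬ P x)
    (hP : ∀ e ∈ G, ∃ x ∈ e, ¬ P x) (hN : ∀ e ∈ G, ∃ x ∈ e, ¬ N x)
    [Nonempty {x // P x}] [Nonempty {x // N x}] {m : ℝ}
    (ha : (Fintype.card {x // P x} : ℝ) = m) (hb : (Fintype.card {x // N x} : ℝ) = m) :
    24 * (G.card : ℝ) ≤ m ^ 2 * (m - 1) * (11 * m - 16)
      - 4 * m ^ 2 * (mis G P N + mis G N P) := by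
  have pa : 0 < m := by rw [← ha]; exact_mod_cast Fintype.card_pos
  have h1 := count' h4 hPN hP hN ha hb
  have hab : Fintype.card {x // P x} = Fintype.card {x // N x} := by
    exact_mod_cast ha.trans hb.symm
  have h2 := wt1 h4 hK (P := P) (N := N) hab ha
  generalize cro G P N = X at *
  generalize mis G P N = Y at *
  generalize mis G N P = Z at *
  have h3 := mul_le_mul_of_nonneg_left h2 (show 0 ≤ 3 * m ^ 4 by positivity)
  have e1 : 3 * m ^ 4 * (1 / m) = 3 * m ^ 3 := by field_simp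
  have e2 : 3 * m ^ 4 * (1 - 2 * X + 4 / 3 * (1 - (1 / m) ^ 2) * (Y + Z))
      = 3 * m ^ 4 - 6 * m ^ 4 * X + 4 * m ^ 4 * (Y + Z) - 4 * m ^ 2 * (Y + Z) := by
    field_simp
    ring
  rw [e1, e2] at h3
  nlinarith

/-- what equality means for the `2 + 2` sets -/
theorem count1_eq (h4 : ∀ A ∈ G, A.card = 4)
    (hK : ¬ ∃ A : Finset V, A.card = 5 ∧ A.powersetCard 4 ⊆ G) {P N : V → Prop}
    (hPN : ∀ x, N x ↔ ¬ P x)
    (hP : ∀ e ∈ G, ∃ x ∈ e, ¬ P x) (hN : ∀ e ∈ G, ∃ x ∈ e, ¬ N x)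
    [Nonempty {x // P x}] [Nonempty {x // N x}] {m : ℝ}
    (ha : (Fintype.card {x // P x} : ℝ) = m) (hb : (Fintype.card {x // N x} : ℝ) = m)
    (heq : 24 * (G.card : ℝ) = m ^ 2 * (m - 1) * (11 * m - 16)) :
    mis G P N = 0 ∧ mis G N P = 0 ∧ cro G P N = 1 / 2 * (1 - 1 / m) := by
  have pa : 0 < m := by rw [← ha]; exact_mod_cast Fintype.card_pos
  have h1 := count' h4 hPN hP hN ha hb
  have h0 := count1 h4 hK hPN hP hN ha hb
  have hab : Fintype.card {x // P x} = Fintype.card {x // N x} := by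
    exact_mod_cast ha.trans hb.symm
  have h2 := wt1 h4 hK (P := P) (N := N) hab ha
  have n1 := mis_nonneg G P N
  have n2 := mis_nonneg G N P
  generalize cro G P N = X at *
  generalize mis G P N = Y at *
  generalize mis G N P = Z at *
  have hYZ : Y + Z ≤ 0 := by
    have : 4 * m ^ 2 * (Y + Z) ≤ 0 := by linarith
    by_contra hc
    push Not at hc
    have : 0 < 4 * m ^ 2 * (Y + Z) := by positivity
    linarith
  have hY : Y = 0 := by linarith
  have hZ : Z = 0 := by linarith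
  refine ⟨hY, hZ, ?_⟩
  rw [hY, hZ] at h1 h2
  have h3 : X ≤ 1 / 2 * (1 - 1 / m) := by linarith
  have h5 : 1 / 2 * (1 - 1 / m) ≤ X := by
    rw [heq] at h1
    have e1 : 6 * m ^ 4 * (1 / 2 * (1 - 1 / m)) = 3 * m ^ 4 - 3 * m ^ 3 := by
      field_simp
      ring
    have h6 : 6 * m ^ 4 * (1 / 2 * (1 - 1 / m)) ≤ 6 * m ^ 4 * X := by
      rw [e1]; nlinarith
    exact le_of_mul_le_mul_left h6 (by positivity)
  linarith

end

/-- the bound for every partition of `Fin n` -/
theorem exSplit_bound (n : ℕ) (A : Finset (Fin n)) (hA : A.Nonempty) (hA' : Aᶜ.Nonempty) :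
    24 * (exSplit n A : ℝ) ≤ 4 * A.card * Aᶜ.card * (((A.card : ℝ) - 1) * (A.card - 2)
        + ((Aᶜ.card : ℝ) - 1) * (Aᶜ.card - 2))
      + 3 * (A.card : ℝ) ^ 2 * (Aᶜ.card : ℝ) ^ 2
      - 3 * A.card * Aᶜ.card * ((A.card : ℝ) ^ 3 + (Aᶜ.card : ℝ) ^ 3)
        / ((A.card : ℝ) ^ 2 + (Aᶜ.card : ℝ) ^ 2) := by
  obtain ⟨G, h1, h2, h3, h4⟩ := exSplit_attained n A
  rw [h4]
  haveI : Nonempty {x // x ∈ A} := by
    obtain ⟨x, hx⟩ := hA
    exact ⟨⟨x, hx⟩⟩
  haveI : Nonempty {x // x ∈ Aᶜ} := by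
    obtain ⟨x, hx⟩ := hA'
    exact ⟨⟨x, hx⟩⟩
  refine count2 (V := Fin n) (G := G) h1 h2 (P := fun x => x ∈ A) (N := fun x => x ∈ Aᶜ)
    (by intro x; simp) ?_ ?_ ?_ ?_
  · intro e he
    have := (h3 e he).1
    rw [not_subset] at this
    exact this
  · intro e he
    have := (h3 e he).2
    rw [not_subset] at this
    exact this
  · rw [card_sub]
  · rw [card_sub]

end Pool.Agent.U195.HX
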